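import Pool.Agent.Helper44.Cart.Solve

set_option autoImplicit false

open Matrix Complex Topology Filter

namespace Pool.Agent.Helper44.Cart

variable {n : ℕ}

/-- The spectral data `(α, β, γ)` are realised at the parameter `κ`. -/
def Sol (κ : ℝ) (α β γ : Fin n → ℝ) : Prop :=
  ∃ (a b : Fin n → ℝ) (V W : Matrix (Fin n) (Fin n) ℂ), (∀ i, 0 ≤ a i) ∧ (∀ i, 0 ≤ b i) ∧
    (∀ i, tk κ (a i) = α i) ∧ (∀ i, tk κ (b i) = β i) ∧ IsU V ∧ IsU W ∧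
    Fk κ (dg a) (V * dg b * Vᴴ) = W * dg γ * Wᴴ

lemma continuous_dg : Continuous (fun a : Fin n → ℝ => dg a) := by
  unfold dg
  fun_prop

lemma isU_iff (V : Matrix (Fin n) (Fin n) ℂ) : IsU V ↔ Vᴴ * V = 1 :=
  ⟨fun h => h.1, fun h => isU_of_left h⟩

lemma IsU.norm_entry_le {V : Matrix (Fin n) (Fin n) ℂ} (hV : IsU V) (i j : Fin n) : ‖V i j‖ ≤ 1 :=
  entry_norm_bound_of_unitary (Matrix.mem_unitaryGroup_iff.2 hV.2) i j

lemma isCompact_U : IsCompact {V : Matrix (Fin n) (Fin n) ℂ | IsU V} := by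
  have h1 : IsClosed {V : Matrix (Fin n) (Fin n) ℂ | IsU V} := by
    simp only [isU_iff]
    exact isClosed_eq (by fun_prop) continuous_const
  have h2 : IsCompact (Set.pi Set.univ (fun _ : Fin n => Set.pi Set.univ
      (fun _ : Fin n => Metric.closedBall (0 : ℂ) 1))) :=
    isCompact_univ_pi fun _ => isCompact_univ_pi fun _ => isCompact_closedBall 0 1
  have h3 : {V : Matrix (Fin n) (Fin n) ℂ | IsU V} ⊆ (Set.pi Set.univ (fun _ : Fin n => Set.pi Set.univ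
      (fun _ : Fin n => Metric.closedBall (0 : ℂ) 1))) := by
    intro V hV i _ j _
    rw [mem_closedBall_zero_iff]
    exact IsU.norm_entry_le hV i j
  exact h2.of_isClosed_subset h1 h3

lemma le_one_add_tk {κ x : ℝ} (hκ0 : 0 ≤ κ) (hκ1 : κ ≤ 1) : x ≤ 1 + tk κ x := by
  unfold tk
  nlinarith [sq_nonneg (x - 1), sq_nonneg (2 * x - 1), mul_nonneg hκ0 (sq_nonneg (2 * x - 1))]

lemma tk_inj {κ x y : ℝ} (hκ0 : 0 ≤ κ) (hκ1 : κ ≤ 1) (hx : 0 ≤ x) (hy : 0 ≤ y)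
    (h : tk κ x = tk κ y) : x = y := by
  unfold tk at h
  have h1 : (x - y) * ((1 - κ) + κ * (x + y)) = 0 := by nlinarith
  rcases mul_eq_zero.1 h1 with h2 | h2
  · linarith
  · have h3 : 0 ≤ κ * (x + y) := by positivity
    have h4 : 1 - κ = 0 := by linarith
    have h5 : κ = 1 := by linarith
    rw [h5] at h2
    linarith

lemma tk_pos {κ x : ℝ} (hκ0 : 0 ≤ κ) (hκ1 : κ ≤ 1) (hx : 0 < x) : 0 < tk κ x := by
  unfold tk
  rcases hκ0.eq_or_lt with h | h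
  · rw [← h]; linarith
  · have h1 : 0 ≤ (1 - κ) * x := mul_nonneg (by linarith) hx.le
    have h2 : 0 < κ * x ^ 2 := by positivity
    linarith

lemma tk_nonneg {κ x : ℝ} (hκ0 : 0 ≤ κ) (hκ1 : κ ≤ 1) (hx : 0 ≤ x) : 0 ≤ tk κ x := by
  unfold tk
  have h1 : 0 ≤ (1 - κ) * x := mul_nonneg (by linarith) hx
  have h2 : 0 ≤ κ * x ^ 2 := by positivity
  linarith

/-- the inverse of `tk κ` -/
noncomputable def rt (κ α : ℝ) : ℝ := 2 * α / ((1 - κ) + Real.sqrt ((1 - κ) ^ 2 + 4 * κ * α))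

lemma rt_den_pos {κ α : ℝ} (_hκ0 : 0 ≤ κ) (hκ1 : κ ≤ 1) (hα : 0 < α) :
    0 < (1 - κ) + Real.sqrt ((1 - κ) ^ 2 + 4 * κ * α) := by
  rcases hκ1.eq_or_lt with h | h
  · rw [h]
    have : 0 < Real.sqrt ((1 - 1) ^ 2 + 4 * 1 * α) := by
      apply Real.sqrt_pos.2
      linarith
    linarith
  · have := Real.sqrt_nonneg ((1 - κ) ^ 2 + 4 * κ * α)
    linarith

lemma rt_pos {κ α : ℝ} (hκ0 : 0 ≤ κ) (hκ1 : κ ≤ 1) (hα : 0 < α) : 0 < rt κ α := by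
  unfold rt
  exact div_pos (by linarith) (rt_den_pos hκ0 hκ1 hα)

lemma tk_rt {κ α : ℝ} (hκ0 : 0 ≤ κ) (hκ1 : κ ≤ 1) (hα : 0 < α) : tk κ (rt κ α) = α := by
  have h1 := rt_den_pos hκ0 hκ1 hα
  unfold tk rt
  set D := Real.sqrt ((1 - κ) ^ 2 + 4 * κ * α) with hD
  have h2 : D ^ 2 = (1 - κ) ^ 2 + 4 * κ * α := by
    rw [hD, Real.sq_sqrt]
    positivity
  have h3 : (1 - κ) + D ≠ 0 := h1.ne'
  field_simp
  linear_combination (-1) * h2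

lemma continuousAt_rt {κ α : ℝ} (hκ0 : 0 ≤ κ) (hκ1 : κ ≤ 1) (hα : 0 < α) :
    ContinuousAt (fun p : ℝ × ℝ => rt p.1 p.2) (κ, α) := by
  unfold rt
  apply ContinuousAt.div
  · fun_prop
  · fun_prop
  · exact (rt_den_pos hκ0 hκ1 hα).ne'

instance instFCT : FirstCountableTopology (Matrix (Fin n) (Fin n) ℂ) :=
  inferInstanceAs (FirstCountableTopology (Fin n → Fin n → ℂ))

/-- Extraction of a convergent subsequence. -/
lemma exists_subseq {a b : ℕ → Fin n → ℝ} {V W : ℕ → Matrix (Fin n) (Fin n) ℂ} {R S : ℝ}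
    (ha : ∀ m i, 0 ≤ a m i) (ha' : ∀ m i, a m i ≤ R) (hb : ∀ m i, 0 ≤ b m i)
    (hb' : ∀ m i, b m i ≤ S) (hV : ∀ m, IsU (V m)) (hW : ∀ m, IsU (W m)) :
    ∃ (a0 b0 : Fin n → ℝ) (V0 W0 : Matrix (Fin n) (Fin n) ℂ) (φ : ℕ → ℕ),
      Tendsto φ atTop atTop ∧ (∀ i, 0 ≤ a0 i) ∧ (∀ i, 0 ≤ b0 i) ∧ IsU V0 ∧ IsU W0 ∧
      Tendsto (fun m => a (φ m)) atTop (𝓝 a0) ∧ Tendsto (fun m => b (φ m)) atTop (𝓝 b0) ∧
      Tendsto (fun m => V (φ m)) atTop (𝓝 V0) ∧ Tendsto (fun m => W (φ m)) atTop (𝓝 W0) := by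
  have hIa : IsCompact (Set.Icc (fun _ : Fin n => (0 : ℝ)) (fun _ : Fin n => R)) := isCompact_Icc
  have hIb : IsCompact (Set.Icc (fun _ : Fin n => (0 : ℝ)) (fun _ : Fin n => S)) := isCompact_Icc
  obtain ⟨a0, ha0, φ1, hφ1, hl1⟩ := hIa.tendsto_subseq (x := a)
    (fun m => ⟨fun i => ha m i, fun i => ha' m i⟩)
  obtain ⟨b0, hb0, φ2, hφ2, hl2⟩ := hIb.tendsto_subseq (x := b ∘ φ1)
    (fun m => ⟨fun i => hb _ i, fun i => hb' _ i⟩)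
  obtain ⟨V0, hV0, φ3, hφ3, hl3⟩ := isCompact_U.tendsto_subseq (x := V ∘ φ1 ∘ φ2)
    (fun m => hV _)
  obtain ⟨W0, hW0, φ4, hφ4, hl4⟩ := isCompact_U.tendsto_subseq (x := W ∘ φ1 ∘ φ2 ∘ φ3)
    (fun m => hW _)
  refine ⟨a0, b0, V0, W0, φ1 ∘ φ2 ∘ φ3 ∘ φ4, ?_, fun i => ha0.1 i, fun i => hb0.1 i, hV0, hW0,
    ?_, ?_, ?_, ?_⟩
  · exact hφ1.tendsto_atTop.comp (hφ2.tendsto_atTop.comp (hφ3.tendsto_atTop.comp hφ4.tendsto_atTop))
  · exact hl1.comp (hφ2.tendsto_atTop.comp (hφ3.tendsto_atTop.comp hφ4.tendsto_atTop))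
  · exact hl2.comp (hφ3.tendsto_atTop.comp hφ4.tendsto_atTop)
  · exact hl3.comp hφ4.tendsto_atTop
  · exact hl4

lemma tendsto_conj {a : ℕ → Fin n → ℝ} {a0 : Fin n → ℝ}
    {V : ℕ → Matrix (Fin n) (Fin n) ℂ} {V0 : Matrix (Fin n) (Fin n) ℂ}
    (ha : Tendsto a atTop (𝓝 a0)) (hV : Tendsto V atTop (𝓝 V0)) :
    Tendsto (fun m => V m * dg (a m) * (V m)ᴴ) atTop (𝓝 (V0 * dg a0 * V0ᴴ)) := by
  have h1 : Tendsto (fun m => dg (a m)) atTop (𝓝 (dg a0)) := (continuous_dg.tendsto a0).comp ha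
  have h2 : Tendsto (fun m => (V m)ᴴ) atTop (𝓝 (V0ᴴ)) := (continuous_star.tendsto V0).comp hV
  exact (hV.mul h1).mul h2

lemma tendsto_Fk {u : ℕ → ℝ} {u0 : ℝ} {A B : ℕ → Matrix (Fin n) (Fin n) ℂ}
    {A0 B0 : Matrix (Fin n) (Fin n) ℂ}
    (hu : Tendsto u atTop (𝓝 u0)) (hA : Tendsto A atTop (𝓝 A0)) (hB : Tendsto B atTop (𝓝 B0)) :
    Tendsto (fun m => Fk (u m) (A m) (B m)) atTop (𝓝 (Fk u0 A0 B0)) := by
  have h1 : Tendsto (fun m => (((1 - u m : ℝ)) : ℂ)) atTop (𝓝 ((1 - u0 : ℝ) : ℂ)) :=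
    (Complex.continuous_ofReal.tendsto _).comp (tendsto_const_nhds.sub hu)
  have h2 : Tendsto (fun m => ((u m : ℝ) : ℂ)) atTop (𝓝 ((u0 : ℝ) : ℂ)) :=
    (Complex.continuous_ofReal.tendsto _).comp hu
  unfold Fk
  exact (h1.smul (hA.add hB)).add (h2.smul (((hA.mul hA).add (hB.mul hB)).add
    (((hA.mul hB).sub (hB.mul hA)).const_smul I)))

lemma tk_limit {u : ℕ → ℝ} {u0 : ℝ} (hu : Tendsto u atTop (𝓝 u0)) {c : ℕ → Fin n → ℝ}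
    {c0 : Fin n → ℝ} {δ : ℕ → Fin n → ℝ} {δ0 : Fin n → ℝ} (hc : Tendsto c atTop (𝓝 c0))
    (hδ : Tendsto δ atTop (𝓝 δ0)) (h : ∀ m i, tk (u m) (c m i) = δ m i) :
    ∀ i, tk u0 (c0 i) = δ0 i := by
  intro i
  have h1 : Tendsto (fun m => tk (u m) (c m i)) atTop (𝓝 (tk u0 (c0 i))) := by
    have hc' : Continuous (fun p : ℝ × (Fin n → ℝ) => tk p.1 (p.2 i)) := by
      unfold tk; fun_prop
    exact (hc'.tendsto (u0, c0)).comp (hu.prodMk_nhds hc)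
  have h2 : Tendsto (fun m => δ m i) atTop (𝓝 (δ0 i)) :=
    ((continuous_apply i).tendsto _).comp hδ
  have h3 : (fun m => tk (u m) (c m i)) = fun m => δ m i := by
    ext m; exact h m i
  rw [h3] at h1
  exact tendsto_nhds_unique h1 h2

lemma norm_bound {α : ℕ → Fin n → ℝ} {α0 : Fin n → ℝ} (hα : Tendsto α atTop (𝓝 α0)) :
    ∃ R, ∀ m i, α m i ≤ R := by
  obtain ⟨R, hR⟩ := (Metric.isBounded_range_of_tendsto α hα).exists_norm_le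
  refine ⟨R, fun m i => ?_⟩
  have h2 := norm_le_pi_norm (α m) i
  have h3 := hR (α m) (Set.mem_range_self m)
  have h4 := le_abs_self (α m i)
  rw [Real.norm_eq_abs] at h2
  linarith


end Pool.Agent.Helper44.Cart
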