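import Pool.Agent.Helper44.Cart.Closed1

set_option autoImplicit false

open Matrix Complex Topology Filter

namespace Pool.Agent.Helper44.Cart

variable {n : ℕ}

theorem sol_closed {u : ℕ → ℝ} {α β γ : ℕ → Fin n → ℝ} {u0 : ℝ} {α0 β0 γ0 : Fin n → ℝ}
    (hu0 : ∀ m, 0 ≤ u m) (hu1 : ∀ m, u m ≤ 1)
    (hu : Tendsto u atTop (𝓝 u0)) (hα : Tendsto α atTop (𝓝 α0)) (hβ : Tendsto β atTop (𝓝 β0))
    (hγ : Tendsto γ atTop (𝓝 γ0)) (h : ∀ m, Sol (u m) (α m) (β m) (γ m)) :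
    Sol u0 α0 β0 γ0 := by
  choose a b V W ha hb haα hbβ hV hW hF using h
  obtain ⟨Rα, hRα⟩ := norm_bound hα
  obtain ⟨Rβ, hRβ⟩ := norm_bound hβ
  obtain ⟨a0, b0, V0, W0, φ, hφ, ha0, hb0, hV0, hW0, hla, hlb, hlV, hlW⟩ :=
    exists_subseq (R := 1 + Rα) (S := 1 + Rβ) ha (fun m i => by
      have h1 := le_one_add_tk (x := a m i) (hu0 m) (hu1 m)
      rw [haα m i] at h1
      have := hRα m i
      linarith) hb (fun m i => by
      have h1 := le_one_add_tk (x := b m i) (hu0 m) (hu1 m)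
      rw [hbβ m i] at h1
      have := hRβ m i
      linarith) hV hW
  have hlu := hu.comp hφ
  have hlα := hα.comp hφ
  have hlβ := hβ.comp hφ
  have hlγ := hγ.comp hφ
  refine ⟨a0, b0, V0, W0, ha0, hb0, tk_limit hlu hla hlα (fun m i => haα (φ m) i),
    tk_limit hlu hlb hlβ (fun m i => hbβ (φ m) i), hV0, hW0, ?_⟩
  have hladg : Tendsto (fun m => dg (a (φ m))) atTop (𝓝 (dg a0)) :=
    (continuous_dg.tendsto a0).comp hla
  have h1 : Tendsto (fun m => Fk (u (φ m)) (dg (a (φ m))) (V (φ m) * dg (b (φ m)) * (V (φ m))ᴴ))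
      atTop (𝓝 (Fk u0 (dg a0) (V0 * dg b0 * V0ᴴ))) :=
    tendsto_Fk hlu hladg (tendsto_conj hlb hlV)
  have h2 : Tendsto (fun m => W (φ m) * dg (γ (φ m)) * (W (φ m))ᴴ)
      atTop (𝓝 (W0 * dg γ0 * W0ᴴ)) := tendsto_conj hlγ hlW
  have h3 : (fun m => Fk (u (φ m)) (dg (a (φ m))) (V (φ m) * dg (b (φ m)) * (V (φ m))ᴴ))
      = fun m => W (φ m) * dg (γ (φ m)) * (W (φ m))ᴴ := by
    ext1 m; exact hF (φ m)
  rw [h3] at h1
  exact tendsto_nhds_unique h1 h2

/-- Local solvability in terms of the spectral data. -/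
theorem local_sol {κ : ℝ} (hκ0 : 0 ≤ κ) (hκ1 : κ ≤ 1) {a b γ : Fin n → ℝ} (ha : ∀ i, 0 < a i)
    (hainj : Function.Injective a) (hb : ∀ i, 0 < b i) (hbinj : Function.Injective b)
    (hγinj : Function.Injective γ)
    {V W : Matrix (Fin n) (Fin n) ℂ} (hV : IsU V) (hW : IsU W)
    (hF : Fk κ (dg a) (V * dg b * Vᴴ) = W * dg γ * Wᴴ) (hirr : Irr (V * dg b * Vᴴ)) :
    ∀ᶠ q : ℝ × (Fin n → ℝ) × (Fin n → ℝ) × (Fin n → ℝ) in
      𝓝 (κ, (fun i => tk κ (a i)), (fun i => tk κ (b i)), γ),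
      0 ≤ q.1 → q.1 ≤ 1 → ∑ i, q.2.2.2 i = ∑ i, q.2.1 i + ∑ i, q.2.2.1 i →
      Sol q.1 q.2.1 q.2.2.1 q.2.2.2 := by
  set q0 : ℝ × (Fin n → ℝ) × (Fin n → ℝ) × (Fin n → ℝ) :=
    (κ, (fun i => tk κ (a i)), (fun i => tk κ (b i)), γ) with hq0
  set G : ℝ × (Fin n → ℝ) × (Fin n → ℝ) × (Fin n → ℝ) → Par n × (Fin n → ℝ) :=
    fun q => ((q.1, (fun i => rt q.1 (q.2.1 i)), (fun i => rt q.1 (q.2.2.1 i))), q.2.2.2) with hG
  have hrt : ∀ x, 0 < x → rt κ (tk κ x) = x := by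
    intro x hx
    apply tk_inj hκ0 hκ1 (rt_pos hκ0 hκ1 (tk_pos hκ0 hκ1 hx)).le hx.le
    exact tk_rt hκ0 hκ1 (tk_pos hκ0 hκ1 hx)
  have hG0 : G q0 = ((κ, a, b), γ) := by
    rw [hG, hq0]
    simp only [hrt _ (ha _), hrt _ (hb _)]
  have hGc : ContinuousAt G q0 := by
    rw [hG]
    apply ContinuousAt.prodMk
    · apply ContinuousAt.prodMk
      · fun_prop
      · apply ContinuousAt.prodMk
        · apply continuousAt_pi.2
          intro i
          have h1 : ContinuousAt (fun p : ℝ × ℝ => rt p.1 p.2)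
              ((fun q : ℝ × (Fin n → ℝ) × (Fin n → ℝ) × (Fin n → ℝ) => (q.1, q.2.1 i)) q0) :=
            continuousAt_rt hκ0 hκ1 (tk_pos hκ0 hκ1 (ha i))
          exact h1.comp (f := fun q : ℝ × (Fin n → ℝ) × (Fin n → ℝ) × (Fin n → ℝ) => (q.1, q.2.1 i))
            (by fun_prop)
        · apply continuousAt_pi.2
          intro i
          have h1 : ContinuousAt (fun p : ℝ × ℝ => rt p.1 p.2)
              ((fun q : ℝ × (Fin n → ℝ) × (Fin n → ℝ) × (Fin n → ℝ) => (q.1, q.2.2.1 i)) q0) :=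
            continuousAt_rt hκ0 hκ1 (tk_pos hκ0 hκ1 (hb i))
          exact h1.comp (f := fun q : ℝ × (Fin n → ℝ) × (Fin n → ℝ) × (Fin n → ℝ) => (q.1, q.2.2.1 i))
            (by fun_prop)
    · fun_prop
  have hloc := local_solv hκ0 hκ1 ha hainj hb hbinj hγinj hV hW hF hirr
  rw [← hG0] at hloc
  have hev := hGc.eventually hloc
  have hpos1 : ∀ᶠ q : ℝ × (Fin n → ℝ) × (Fin n → ℝ) × (Fin n → ℝ) in 𝓝 q0, ∀ i, 0 < q.2.1 i := by
    rw [eventually_all]
    intro i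
    have hc : ContinuousAt (fun q : ℝ × (Fin n → ℝ) × (Fin n → ℝ) × (Fin n → ℝ) => q.2.1 i) q0 := by
      fun_prop
    exact hc.eventually (lt_mem_nhds (tk_pos hκ0 hκ1 (ha i)))
  have hpos2 : ∀ᶠ q : ℝ × (Fin n → ℝ) × (Fin n → ℝ) × (Fin n → ℝ) in 𝓝 q0, ∀ i, 0 < q.2.2.1 i := by
    rw [eventually_all]
    intro i
    have hc : ContinuousAt (fun q : ℝ × (Fin n → ℝ) × (Fin n → ℝ) × (Fin n → ℝ) => q.2.2.1 i) q0 := by
      fun_prop
    exact hc.eventually (lt_mem_nhds (tk_pos hκ0 hκ1 (hb i)))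
  filter_upwards [hev, hpos1, hpos2] with q h1 h2 h3 h4 h5 h6
  have e1 : ∀ i, tk q.1 (rt q.1 (q.2.1 i)) = q.2.1 i := fun i => tk_rt h4 h5 (h2 i)
  have e2 : ∀ i, tk q.1 (rt q.1 (q.2.2.1 i)) = q.2.2.1 i := fun i => tk_rt h4 h5 (h3 i)
  obtain ⟨V', W', hV', hW', hF'⟩ := h1 (by
    show ∑ i, q.2.2.2 i = ∑ i, tk q.1 (rt q.1 (q.2.1 i)) + ∑ i, tk q.1 (rt q.1 (q.2.2.1 i))
    simp only [e1, e2]
    exact h6)
  exact ⟨fun i => rt q.1 (q.2.1 i), fun i => rt q.1 (q.2.2.1 i), V', W',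
    fun i => (rt_pos h4 h5 (h2 i)).le, fun i => (rt_pos h4 h5 (h3 i)).le, e1, e2, hV', hW', hF'⟩

/-- For regular spectral data solvability does not depend on the parameter. -/
theorem sol_of_regular {α β γ : Fin n → ℝ} (hreg : Regular α β γ) (hα : ∀ i, 0 < α i)
    (hβ : ∀ i, 0 < β i) (hs : ∑ i, γ i = ∑ i, α i + ∑ i, β i) {κ0 κ1 : ℝ}
    (h0 : κ0 ∈ Set.Icc (0 : ℝ) 1) (h1 : κ1 ∈ Set.Icc (0 : ℝ) 1) (h : Sol κ0 α β γ) :
    Sol κ1 α β γ := by
  set S : Set (Set.Icc (0 : ℝ) 1) := {κ | Sol κ α β γ} with hS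
  have hclosed : IsClosed S := by
    apply IsSeqClosed.isClosed
    intro u κ hu hlim
    exact sol_closed (u := fun m => (u m : ℝ)) (α := fun _ => α) (β := fun _ => β) (γ := fun _ => γ)
      (fun m => (u m).2.1) (fun m => (u m).2.2)
      ((continuous_subtype_val.tendsto κ).comp hlim) tendsto_const_nhds tendsto_const_nhds
      tendsto_const_nhds hu
  have hopen : IsOpen S := by
    rw [isOpen_iff_mem_nhds]
    intro κ hκ
    have hκ0 := κ.2.1
    have hκ1 := κ.2.2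
    obtain ⟨a, b, V, W, ha, hb, haα, hbβ, hV, hW, hF⟩ := hκ
    have ha' : ∀ i, 0 < a i := by
      intro i
      rcases (ha i).eq_or_lt with h2 | h2
      · exfalso
        have h3 := haα i
        rw [← h2] at h3
        unfold tk at h3
        have h4 := hα i
        rw [← h3] at h4
        simp at h4
      · exact h2
    have hb' : ∀ i, 0 < b i := by
      intro i
      rcases (hb i).eq_or_lt with h2 | h2
      · exfalso
        have h3 := hbβ i
        rw [← h2] at h3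
        unfold tk at h3
        have h4 := hβ i
        rw [← h3] at h4
        simp at h4
      · exact h2
    have eα : (fun i => tk κ (a i)) = α := funext haα
    have eβ : (fun i => tk κ (b i)) = β := funext hbβ
    have hainj : Function.Injective a := by
      intro i j hij
      apply hreg.1
      rw [← haα i, ← haα j, hij]
    have hbinj : Function.Injective b := by
      intro i j hij
      apply hreg.2.1
      rw [← hbβ i, ← hbβ j, hij]
    have hirr : Irr (V * dg b * Vᴴ) := fun T hT =>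
      irreducible_of_regular (κ := (κ : ℝ)) (a := a) (b := b) (γ := γ) (by rw [eα, eβ]; exact hreg)
        hV.1 hV.2 hW.1 hW.2 rfl hF T hT
    have hloc := local_sol hκ0 hκ1 ha' hainj hb' hbinj hreg.2.2.1 hV hW hF hirr
    rw [eα, eβ] at hloc
    have hc : Tendsto (fun κ' : Set.Icc (0 : ℝ) 1 => ((κ' : ℝ), α, β, γ)) (𝓝 κ)
        (𝓝 ((κ : ℝ), α, β, γ)) := by
      have : Continuous (fun κ' : Set.Icc (0 : ℝ) 1 => ((κ' : ℝ), α, β, γ)) := by fun_prop
      exact this.tendsto κ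
    filter_upwards [hc.eventually hloc] with κ' hκ'
    exact hκ' κ'.2.1 κ'.2.2 hs
  have hne : S.Nonempty := ⟨⟨κ0, h0⟩, h⟩
  have huniv : S = Set.univ := IsClopen.eq_univ ⟨hclosed, hopen⟩ hne
  have : (⟨κ1, h1⟩ : Set.Icc (0 : ℝ) 1) ∈ S := by rw [huniv]; exact Set.mem_univ _
  exact this

end Pool.Agent.Helper44.Cart
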