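import Pool.Agent.Helper44.Cart.Closed

set_option autoImplicit false

open Matrix Complex Topology Filter
open scoped ComplexOrder

namespace Pool.Agent.Helper44.Cart

variable {n : ℕ}

/-! ### Polynomial functions of a real variable -/

/-- polynomial functions of a real variable with complex coefficients -/
def Pf (f : ℝ → ℂ) : Prop := ∃ p : Polynomial ℂ, ∀ t : ℝ, f t = p.eval (t : ℂ)

lemma Pf.const (c : ℂ) : Pf (fun _ => c) := ⟨Polynomial.C c, fun t => by simp⟩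

lemma Pf.id : Pf (fun t => (t : ℂ)) := ⟨Polynomial.X, fun t => by simp⟩

lemma Pf.add {f g : ℝ → ℂ} (hf : Pf f) (hg : Pf g) : Pf (fun t => f t + g t) := by
  obtain ⟨p, hp⟩ := hf
  obtain ⟨q, hq⟩ := hg
  exact ⟨p + q, fun t => by show f t + g t = _; rw [hp, hq, Polynomial.eval_add]⟩

lemma Pf.mul {f g : ℝ → ℂ} (hf : Pf f) (hg : Pf g) : Pf (fun t => f t * g t) := by
  obtain ⟨p, hp⟩ := hf
  obtain ⟨q, hq⟩ := hg
  exact ⟨p * q, fun t => by show f t * g t = _; rw [hp, hq, Polynomial.eval_mul]⟩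

lemma Pf.sub {f g : ℝ → ℂ} (hf : Pf f) (hg : Pf g) : Pf (fun t => f t - g t) := by
  obtain ⟨p, hp⟩ := hf
  obtain ⟨q, hq⟩ := hg
  exact ⟨p - q, fun t => by show f t - g t = _; rw [hp, hq, Polynomial.eval_sub]⟩

lemma Pf.sum {ι : Type} {s : Finset ι} {f : ι → ℝ → ℂ} (h : ∀ i ∈ s, Pf (f i)) :
    Pf (fun t => ∑ i ∈ s, f i t) := by
  classical
  induction s using Finset.induction_on with
  | empty => simpa using Pf.const 0
  | insert i s hi ih =>
    have h1 : Pf (fun t => f i t + ∑ i ∈ s, f i t) :=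
      (h i (Finset.mem_insert_self i s)).add (ih fun j hj => h j (Finset.mem_insert_of_mem hj))
    convert h1 using 2 with t
    rw [Finset.sum_insert hi]

lemma Pf.prod {ι : Type} {s : Finset ι} {f : ι → ℝ → ℂ} (h : ∀ i ∈ s, Pf (f i)) :
    Pf (fun t => ∏ i ∈ s, f i t) := by
  classical
  induction s using Finset.induction_on with
  | empty => simpa using Pf.const 1
  | insert i s hi ih =>
    have h1 : Pf (fun t => f i t * ∏ i ∈ s, f i t) :=
      (h i (Finset.mem_insert_self i s)).mul (ih fun j hj => h j (Finset.mem_insert_of_mem hj))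
    convert h1 using 2 with t
    rw [Finset.prod_insert hi]

lemma eventually_notMem_of_finite {S : Set ℝ} (hS : S.Finite) (t0 : ℝ) :
    ∀ᶠ t in 𝓝[≠] t0, t ∉ S := by
  have h1 : IsClosed (S \ {t0}) := (hS.subset Set.sdiff_subset).isClosed
  have h2 : (S \ {t0})ᶜ ∈ 𝓝 t0 := h1.isOpen_compl.mem_nhds (by simp)
  rw [eventually_nhdsWithin_iff]
  filter_upwards [h2] with t ht hne hmem
  exact ht ⟨hmem, hne⟩

lemma Pf.eventually_ne {f : ℝ → ℂ} (hf : Pf f) {t1 : ℝ} (h : f t1 ≠ 0) (t0 : ℝ) :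
    ∀ᶠ t in 𝓝[≠] t0, f t ≠ 0 := by
  obtain ⟨p, hp⟩ := hf
  have hp0 : p ≠ 0 := by
    intro h0
    apply h
    rw [hp, h0, Polynomial.eval_zero]
  have hfin : {t : ℝ | f t = 0}.Finite := by
    have h1 : {z : ℂ | p.IsRoot z}.Finite := Polynomial.finite_setOfPred_isRoot hp0
    have h2 : ((fun t : ℝ => (t : ℂ)) ⁻¹' {z : ℂ | p.IsRoot z}).Finite :=
      h1.preimage (Complex.ofReal_injective.injOn)
    refine h2.subset ?_
    intro t ht
    show p.eval (t : ℂ) = 0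
    rw [← hp]
    exact ht
  exact eventually_notMem_of_finite hfin t0

/-- matrix-valued polynomial functions -/
def PfM {m : ℕ} (F : ℝ → Matrix (Fin m) (Fin m) ℂ) : Prop := ∀ i j, Pf (fun t => F t i j)

lemma PfM.const (A : Matrix (Fin n) (Fin n) ℂ) : PfM (fun _ => A) := fun i j => Pf.const (A i j)

lemma PfM.add {F G : ℝ → Matrix (Fin n) (Fin n) ℂ} (hF : PfM F) (hG : PfM G) :
    PfM (fun t => F t + G t) := fun i j => (hF i j).add (hG i j)

lemma PfM.sub {F G : ℝ → Matrix (Fin n) (Fin n) ℂ} (hF : PfM F) (hG : PfM G) :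
    PfM (fun t => F t - G t) := fun i j => (hF i j).sub (hG i j)

lemma PfM.mul {F G : ℝ → Matrix (Fin n) (Fin n) ℂ} (hF : PfM F) (hG : PfM G) :
    PfM (fun t => F t * G t) := by
  intro i j
  simp only [Matrix.mul_apply]
  exact Pf.sum fun k _ => (hF i k).mul (hG k j)

lemma PfM.smul {f : ℝ → ℂ} {F : ℝ → Matrix (Fin n) (Fin n) ℂ} (hf : Pf f) (hF : PfM F) :
    PfM (fun t => f t • F t) := fun i j => hf.mul (hF i j)

lemma PfM.pow {F : ℝ → Matrix (Fin n) (Fin n) ℂ} (hF : PfM F) (k : ℕ) :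
    PfM (fun t => F t ^ k) := by
  induction k with
  | zero => simpa using PfM.const (1 : Matrix (Fin n) (Fin n) ℂ)
  | succ k ih =>
    simp only [pow_succ]
    exact ih.mul hF

lemma PfM.trace {F : ℝ → Matrix (Fin n) (Fin n) ℂ} (hF : PfM F) :
    Pf (fun t => Matrix.trace (F t)) := by
  unfold Matrix.trace
  exact Pf.sum fun i _ => hF i i

lemma PfM.det {F : ℝ → Matrix (Fin n) (Fin n) ℂ} (hF : PfM F) :
    Pf (fun t => Matrix.det (F t)) := by
  simp only [Matrix.det_apply]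
  apply Pf.sum
  intro σ _
  have h1 : Pf (fun t => ((Equiv.Perm.sign σ : ℤ) : ℂ) * ∏ i, F t (σ i) i) :=
    (Pf.const _).mul (Pf.prod fun i _ => hF (σ i) i)
  convert h1 using 2 with t
  rw [Units.smul_def, zsmul_eq_mul]

/-- Hankel determinant of power traces -/
noncomputable def hk (H : Matrix (Fin n) (Fin n) ℂ) : ℂ :=
  Matrix.det (Matrix.of fun i j : Fin n => Matrix.trace (H ^ ((i : ℕ) + (j : ℕ))))

lemma hk_pf {F : ℝ → Matrix (Fin n) (Fin n) ℂ} (hF : PfM F) : Pf (fun t => hk (F t)) := by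
  unfold hk
  apply PfM.det
  intro i j
  exact (hF.pow _).trace

lemma hk_ne_iff {W : Matrix (Fin n) (Fin n) ℂ} (hW : IsU W) (γ : Fin n → ℝ) :
    hk (W * dg γ * Wᴴ) ≠ 0 ↔ Function.Injective γ := by
  have h1 : (Matrix.of fun i j : Fin n => Matrix.trace ((W * dg γ * Wᴴ) ^ ((i : ℕ) + (j : ℕ))))
      = (Matrix.vandermonde (fun i => (γ i : ℂ)))ᵀ * Matrix.vandermonde (fun i => (γ i : ℂ)) := by
    ext i j
    rw [Matrix.of_apply, trace_conj_pow hW, Matrix.mul_apply]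
    push_cast
    apply Finset.sum_congr rfl
    intro k _
    rw [Matrix.transpose_apply, Matrix.vandermonde_apply, Matrix.vandermonde_apply, pow_add]
  unfold hk
  rw [h1, Matrix.det_mul, Matrix.det_transpose, mul_self_ne_zero,
    Matrix.det_vandermonde_ne_zero_iff]
  constructor
  · intro h i j hij
    exact h (by show (γ i : ℂ) = γ j; rw [hij])
  · intro h i j hij
    exact h (Complex.ofReal_injective hij)

lemma hk_dg_ne_iff (γ : Fin n → ℝ) : hk (dg γ) ≠ 0 ↔ Function.Injective γ := by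
  have := hk_ne_iff isU_one γ
  simpa using this

/-! ### Generic perturbation -/

/-- the all-ones matrix -/
def ones : Matrix (Fin n) (Fin n) ℂ := Matrix.of fun _ _ => 1

/-- the diagonal `1, …, n` -/
def dd : Fin n → ℝ := fun i => (i : ℝ) + 1

lemma dd_pos (i : Fin n) : 0 < dd i := by unfold dd; positivity

lemma dd_inj : Function.Injective (dd : Fin n → ℝ) := by
  intro i j h
  unfold dd at h
  have : (i : ℝ) = j := by linarith
  exact Fin.ext (by exact_mod_cast this)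

lemma ones_posSemidef : (ones : Matrix (Fin n) (Fin n) ℂ).PosSemidef := by
  have h : (ones : Matrix (Fin n) (Fin n) ℂ) = Matrix.vecMulVec (fun _ => 1) (star (fun _ => 1)) := by
    ext i j
    simp [ones, Matrix.vecMulVec]
  rw [h]
  exact Matrix.posSemidef_vecMulVec_self_star _

lemma ones_isHermitian : (ones : Matrix (Fin n) (Fin n) ℂ).IsHermitian := ones_posSemidef.1

lemma dg_posDef {a : Fin n → ℝ} (ha : ∀ i, 0 < a i) : (dg a).PosDef := by
  unfold dg
  rw [Matrix.posDef_diagonal_iff]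
  intro i
  exact_mod_cast ha i

lemma dg_posSemidef {a : Fin n → ℝ} (ha : ∀ i, 0 ≤ a i) : (dg a).PosSemidef := by
  unfold dg
  rw [Matrix.posSemidef_diagonal_iff]
  intro i
  exact_mod_cast ha i

lemma exists_eta {κ : ℝ} (hκ0 : 0 ≤ κ) (hκ1 : κ ≤ 1) :
    ∃ η : ℝ, 0 < η ∧ hk (dg (dd : Fin n → ℝ) + (η : ℂ) • ones) ≠ 0 ∧
      hk (Fk κ (dg (dd : Fin n → ℝ)) (dg dd + (η : ℂ) • ones)) ≠ 0 := by
  have hB : PfM (fun η : ℝ => dg (dd : Fin n → ℝ) + (η : ℂ) • ones) :=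
    (PfM.const _).add (PfM.smul Pf.id (PfM.const _))
  have hF : PfM (fun η : ℝ => Fk κ (dg (dd : Fin n → ℝ)) (dg dd + (η : ℂ) • ones)) := by
    unfold Fk
    have hA : PfM (fun _ : ℝ => dg (dd : Fin n → ℝ)) := PfM.const _
    exact (PfM.smul (Pf.const _) (hA.add hB)).add (PfM.smul (Pf.const _) (((hA.mul hA).add
      (hB.mul hB)).add (PfM.smul (Pf.const I) ((hA.mul hB).sub (hB.mul hA)))))
  have h1 : hk (dg (dd : Fin n → ℝ) + ((0 : ℝ) : ℂ) • ones) ≠ 0 := by
    rw [Complex.ofReal_zero, zero_smul, add_zero, hk_dg_ne_iff]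
    exact dd_inj
  have h2 : hk (Fk κ (dg (dd : Fin n → ℝ)) (dg dd + ((0 : ℝ) : ℂ) • ones)) ≠ 0 := by
    rw [Complex.ofReal_zero, zero_smul, add_zero, Fk_eq, Tk_dg, sub_self, smul_zero, add_zero,
      dg_add_dg, hk_dg_ne_iff]
    intro i j hij
    have h3 : tk κ (dd i) = tk κ (dd j) := by
      have : tk κ (dd i) + tk κ (dd i) = tk κ (dd j) + tk κ (dd j) := hij
      linarith
    exact dd_inj (tk_inj hκ0 hκ1 (dd_pos i).le (dd_pos j).le h3)
  have e1 := (hk_pf hB).eventually_ne h1 0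
  have e2 := (hk_pf hF).eventually_ne h2 0
  have e3 : ∀ᶠ η : ℝ in 𝓝[>] 0, 0 < η := self_mem_nhdsWithin
  have hle : 𝓝[>] (0 : ℝ) ≤ 𝓝[≠] 0 := nhdsWithin_mono _ (fun x hx => ne_of_gt hx)
  obtain ⟨η, h4, h5, h6⟩ := (e3.and ((e1.filter_mono hle).and (e2.filter_mono hle))).exists
  exact ⟨η, h4, h5, h6⟩

/-- Generic perturbations of a pair of positive semidefinite matrices. -/
lemma exists_generic {κ : ℝ} (hκ0 : 0 ≤ κ) (hκ1 : κ ≤ 1) {a : Fin n → ℝ} (ha : ∀ i, 0 ≤ a i)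
    {B : Matrix (Fin n) (Fin n) ℂ} (hB : B.PosSemidef) :
    ∃ (am : ℕ → Fin n → ℝ) (Bm : ℕ → Matrix (Fin n) (Fin n) ℂ),
      Tendsto am atTop (𝓝 a) ∧ Tendsto Bm atTop (𝓝 B) ∧
      ∀ m, (∀ i, 0 < am m i) ∧ Function.Injective (am m) ∧ (Bm m).PosDef ∧ hk (Bm m) ≠ 0 ∧
        hk (Fk κ (dg (am m)) (Bm m)) ≠ 0 ∧ Irr (Bm m) := by
  obtain ⟨η, hη, hη1, hη2⟩ := exists_eta (n := n) hκ0 hκ1
  set B1 : Matrix (Fin n) (Fin n) ℂ := dg dd + (η : ℂ) • ones with hB1
  have hB1pd : B1.PosDef := by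
    apply (dg_posDef dd_pos).add_posSemidef
    exact ones_posSemidef.smul (by exact_mod_cast hη.le)
  set at' : ℝ → Fin n → ℝ := fun t i => (1 - t) * a i + t * dd i with hat
  set Bt : ℝ → Matrix (Fin n) (Fin n) ℂ := fun t => ((1 - t : ℝ) : ℂ) • B + (t : ℂ) • B1 with hBt
  have hPa : PfM (fun t => dg (at' t)) := by
    intro i j
    by_cases h : i = j
    · subst h
      have : Pf (fun t : ℝ => (1 - (t : ℂ)) * (a i : ℂ) + (t : ℂ) * (dd i : ℂ)) :=
        (((Pf.const 1).sub Pf.id).mul (Pf.const _)).add (Pf.id.mul (Pf.const _))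
      convert this using 2 with t
      simp [dg, hat]
    · have : Pf (fun _ : ℝ => (0 : ℂ)) := Pf.const 0
      convert this using 2 with t
      simp [dg, h]
  have hPB : PfM Bt := by
    have h1 : Pf (fun t : ℝ => ((1 - t : ℝ) : ℂ)) := by
      have : Pf (fun t : ℝ => 1 - (t : ℂ)) := (Pf.const 1).sub Pf.id
      convert this using 2 with t
      push_cast; rfl
    exact (PfM.smul h1 (PfM.const _)).add (PfM.smul Pf.id (PfM.const _))
  have hPF : PfM (fun t => Fk κ (dg (at' t)) (Bt t)) := by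
    unfold Fk
    exact (PfM.smul (Pf.const _) (hPa.add hPB)).add (PfM.smul (Pf.const _) (((hPa.mul hPa).add
      (hPB.mul hPB)).add (PfM.smul (Pf.const I) ((hPa.mul hPB).sub (hPB.mul hPa)))))
  have hat1 : at' 1 = dd := by
    ext i; simp [hat]
  have hBt1 : Bt 1 = B1 := by
    simp [hBt]
  have ev1 : ∀ᶠ t in 𝓝[≠] (0 : ℝ), hk (dg (at' t)) ≠ 0 :=
    (hk_pf hPa).eventually_ne (t1 := 1) (by rw [hat1, hk_dg_ne_iff]; exact dd_inj) 0
  have ev2 : ∀ᶠ t in 𝓝[≠] (0 : ℝ), hk (Bt t) ≠ 0 :=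
    (hk_pf hPB).eventually_ne (t1 := 1) (by rw [hBt1]; exact hη1) 0
  have ev3 : ∀ᶠ t in 𝓝[≠] (0 : ℝ), hk (Fk κ (dg (at' t)) (Bt t)) ≠ 0 :=
    (hk_pf hPF).eventually_ne (t1 := 1) (by rw [hBt1, hat1]; exact hη2) 0
  have ev4 : ∀ᶠ t in 𝓝[≠] (0 : ℝ), ∀ j k : Fin n, j ≠ k → Bt t j k ≠ 0 := by
    rw [eventually_all]
    intro j
    rw [eventually_all]
    intro k
    by_cases hjk : j = k
    · exact Filter.Eventually.of_forall fun t h => absurd hjk h
    · have : ∀ᶠ t in 𝓝[≠] (0 : ℝ), Bt t j k ≠ 0 := (hPB j k).eventually_ne (t1 := 1) (by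
        rw [hBt1, hB1]
        simp [dg, hjk, ones, hη.ne']) 0
      filter_upwards [this] with t ht _
      exact ht
  have hle : 𝓝[>] (0 : ℝ) ≤ 𝓝[≠] 0 := nhdsWithin_mono _ (fun x hx => ne_of_gt hx)
  have hall := (ev1.and (ev2.and (ev3.and ev4))).filter_mono hle
  have hseq : ∀ m : ℕ, ∃ t : ℝ, 0 < t ∧ t < 1 / ((m : ℝ) + 2) ∧ hk (dg (at' t)) ≠ 0 ∧
      hk (Bt t) ≠ 0 ∧ hk (Fk κ (dg (at' t)) (Bt t)) ≠ 0 ∧ ∀ j k : Fin n, j ≠ k → Bt t j k ≠ 0 := by
    intro m
    have h1 : Set.Ioo (0 : ℝ) (1 / ((m : ℝ) + 2)) ∈ 𝓝[>] (0 : ℝ) :=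
      Ioo_mem_nhdsGT (by positivity)
    obtain ⟨t, ht1, ht2⟩ := (hall.and h1).exists
    exact ⟨t, ht2.1, ht2.2, ht1.1, ht1.2.1, ht1.2.2.1, ht1.2.2.2⟩
  choose t ht0 ht1 hh1 hh2 hh3 hh4 using hseq
  have htlt : ∀ m, t m < 1 := by
    intro m
    refine (ht1 m).trans_le ?_
    rw [div_le_one (by positivity)]
    have : (0 : ℝ) ≤ m := Nat.cast_nonneg m
    linarith
  have htlim : Tendsto t atTop (𝓝 0) := by
    apply squeeze_zero (fun m => (ht0 m).le) (fun m => (ht1 m).le)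
    have h1 : Tendsto (fun m : ℕ => (m : ℝ) + 2) atTop atTop :=
      tendsto_atTop_add_const_right _ _ tendsto_natCast_atTop_atTop
    have h2 := h1.inv_tendsto_atTop
    refine h2.congr (fun m => ?_)
    rw [Pi.inv_apply, one_div]
  refine ⟨fun m => at' (t m), fun m => Bt (t m), ?_, ?_, ?_⟩
  · have hc : Continuous at' := by
      rw [hat]; fun_prop
    have h0 : at' 0 = a := by ext i; simp [hat]
    have h1 := (hc.tendsto 0).comp htlim
    rw [h0] at h1
    exact h1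
  · have hc : Continuous Bt := by
      rw [hBt]; fun_prop
    have h0 : Bt 0 = B := by simp [hBt]
    have h1 := (hc.tendsto 0).comp htlim
    rw [h0] at h1
    exact h1
  · intro m
    refine ⟨?_, ?_, ?_, hh2 m, hh3 m, ?_⟩
    · intro i
      have h1 : 0 ≤ (1 - t m) * a i := mul_nonneg (by linarith [htlt m]) (ha i)
      have h2 : 0 < t m * dd i := mul_pos (ht0 m) (dd_pos i)
      show 0 < (1 - t m) * a i + t m * dd i
      linarith
    · exact (hk_dg_ne_iff _).1 (hh1 m)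
    · have h1 : (((1 - t m : ℝ) : ℂ) • B).PosSemidef :=
        hB.smul (by have := htlt m; exact_mod_cast (by linarith : (0 : ℝ) ≤ 1 - t m))
      have h2 : ((t m : ℂ) • B1).PosDef := hB1pd.smul (by exact_mod_cast ht0 m)
      exact h2.posSemidef_add h1
    · intro S hS
      by_contra hcon
      push Not at hcon
      obtain ⟨j, hj⟩ := hcon.1
      obtain ⟨k, hk'⟩ : ∃ k, k ∉ S := by
        by_contra hall
        push Not at hall
        exact hcon.2 (Finset.eq_univ_iff_forall.2 hall)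
      exact hh4 m j k (fun h => hk' (h ▸ hj)) (hS j hj k hk')

end Pool.Agent.Helper44.Cart
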