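import Mathlib

set_option autoImplicit false

open Polynomial

namespace Pool.Agent.Helper44.Cart

variable {n : ℕ}

/-- Two real tuples with the same multiset of values differ by a permutation. -/
lemma exists_perm_of_map_eq {f g : Fin n → ℝ}
    (h : (Finset.univ : Finset (Fin n)).val.map f = (Finset.univ : Finset (Fin n)).val.map g) :
    ∃ σ : Equiv.Perm (Fin n), f ∘ σ = g := by
  rw [Fin.univ_val_map, Fin.univ_val_map] at h
  have hp : (List.ofFn f).Perm (List.ofFn g) := Multiset.coe_eq_coe.1 h
  have key : f ∘ Tuple.sort f = g ∘ Tuple.sort g :=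
    List.ofFn_injective <|
      (((Tuple.sort f).ofFn_comp_perm f).trans (hp.trans
        ((Tuple.sort g).ofFn_comp_perm g).symm)).eq_of_pairwise'
        (Tuple.monotone_sort f).sortedLE_ofFn.pairwise (Tuple.monotone_sort g).sortedLE_ofFn.pairwise
  refine ⟨(Tuple.sort g).symm.trans (Tuple.sort f), ?_⟩
  ext i
  have := congrFun key ((Tuple.sort g).symm i)
  simpa using this

lemma psum_eval (f : Fin n → ℝ) (k : ℕ) :
    MvPolynomial.aeval f (MvPolynomial.psum (Fin n) ℝ k) = ∑ i, f i ^ k := by
  simp [MvPolynomial.psum]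

lemma esymm_eq_of_psum_eq {f g : Fin n → ℝ} (h : ∀ k, 1 ≤ k → k ≤ n → ∑ i, f i ^ k = ∑ i, g i ^ k) :
    ∀ k, k ≤ n → MvPolynomial.aeval f (MvPolynomial.esymm (Fin n) ℝ k)
      = MvPolynomial.aeval g (MvPolynomial.esymm (Fin n) ℝ k) := by
  intro k
  induction k using Nat.strong_induction_on with
  | _ k ih =>
    intro hk
    rcases Nat.eq_zero_or_pos k with h0 | h0
    · subst h0; simp [MvPolynomial.esymm_zero]
    · have hf := congrArg (MvPolynomial.aeval f) (MvPolynomial.mul_esymm_eq_sum (Fin n) ℝ k)
      have hg := congrArg (MvPolynomial.aeval g) (MvPolynomial.mul_esymm_eq_sum (Fin n) ℝ k)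
      simp only [map_mul, map_sum, map_pow, map_neg, map_one, map_natCast, psum_eval] at hf hg
      have hk0 : (k : ℝ) ≠ 0 := by exact_mod_cast h0.ne'
      apply mul_left_cancel₀ hk0
      rw [hf, hg]
      congr 1
      apply Finset.sum_congr rfl
      intro a ha
      rw [Finset.mem_filter, Finset.HasAntidiagonal.mem_antidiagonal] at ha
      rw [ih a.1 ha.2 (by omega), h a.2 (by omega) (by omega)]

/-- Newton: equal power sums up to `n` imply equality up to a permutation. -/
theorem exists_perm_of_psum_eq {f g : Fin n → ℝ}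
    (h : ∀ k, 1 ≤ k → k ≤ n → ∑ i, f i ^ k = ∑ i, g i ^ k) :
    ∃ σ : Equiv.Perm (Fin n), f ∘ σ = g := by
  apply exists_perm_of_map_eq
  have hpoly : (((Finset.univ : Finset (Fin n)).val.map f).map (fun t => X - C t)).prod
      = (((Finset.univ : Finset (Fin n)).val.map g).map (fun t => X - C t)).prod := by
    rw [Multiset.prod_X_sub_X_eq_sum_esymm, Multiset.prod_X_sub_X_eq_sum_esymm]
    simp only [Multiset.card_map, Finset.card_val, Finset.card_univ, Fintype.card_fin]
    apply Finset.sum_congr rfl
    intro j hj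
    have hj' : j ≤ n := Nat.lt_succ_iff.1 (Finset.mem_range.1 hj)
    have := esymm_eq_of_psum_eq h j hj'
    rw [MvPolynomial.aeval_esymm_eq_multiset_esymm, MvPolynomial.aeval_esymm_eq_multiset_esymm] at this
    rw [this]
  have := congrArg Polynomial.roots hpoly
  rwa [Polynomial.roots_multiset_prod_X_sub_C, Polynomial.roots_multiset_prod_X_sub_C] at this

end Pool.Agent.Helper44.Cart
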