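import Pool.Agent.Helper44.Cart.Regular
import Pool.Agent.Helper44.Cart.Newton

set_option autoImplicit false

open Matrix Complex

namespace Pool.Agent.Helper44.Cart

variable {n : ℕ}

/-- `U` is unitary. -/
def IsU (U : Matrix (Fin n) (Fin n) ℂ) : Prop := Uᴴ * U = 1 ∧ U * Uᴴ = 1

lemma isU_of_left {U : Matrix (Fin n) (Fin n) ℂ} (h : Uᴴ * U = 1) : IsU U :=
  ⟨h, mul_eq_one_comm.1 h⟩

lemma IsU.mul {U V : Matrix (Fin n) (Fin n) ℂ} (hU : IsU U) (hV : IsU V) : IsU (U * V) := by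
  apply isU_of_left
  rw [Matrix.conjTranspose_mul, Matrix.mul_assoc, ← Matrix.mul_assoc Uᴴ, hU.1, Matrix.one_mul, hV.1]

lemma IsU.conjTranspose {U : Matrix (Fin n) (Fin n) ℂ} (hU : IsU U) : IsU Uᴴ := by
  refine ⟨?_, ?_⟩
  · rw [Matrix.conjTranspose_conjTranspose]; exact hU.2
  · rw [Matrix.conjTranspose_conjTranspose]; exact hU.1

lemma isU_one : IsU (1 : Matrix (Fin n) (Fin n) ℂ) := by
  apply isU_of_left; simp

/-- Spectral theorem. -/
lemma exists_diag {H : Matrix (Fin n) (Fin n) ℂ} (hH : H.IsHermitian) :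
    ∃ (V : Matrix (Fin n) (Fin n) ℂ), IsU V ∧ H = V * dg hH.eigenvalues * Vᴴ := by
  refine ⟨(hH.eigenvectorUnitary : Matrix (Fin n) (Fin n) ℂ), ?_, ?_⟩
  · apply isU_of_left
    exact (Matrix.mem_unitaryGroup_iff'.1 hH.eigenvectorUnitary.2)
  · have h := hH.spectral_theorem
    rw [Unitary.conjStarAlgAut_apply] at h
    exact h

lemma conj_perm {V : Matrix (Fin n) (Fin n) ℂ} (hV : IsU V) (b : Fin n → ℝ)
    (σ : Equiv.Perm (Fin n)) :
    ∃ V' : Matrix (Fin n) (Fin n) ℂ, IsU V' ∧ V * dg b * Vᴴ = V' * dg (b ∘ σ) * V'ᴴ := by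
  refine ⟨V.submatrix id σ, ?_, ?_⟩
  · apply isU_of_left
    rw [Matrix.conjTranspose_submatrix, ← Matrix.submatrix_mul _ _ _ _ _ Function.bijective_id,
      hV.1, Matrix.submatrix_one_equiv]
  · have h1 : dg (b ∘ σ) = (dg b).submatrix σ σ := by
      unfold dg
      rw [Matrix.submatrix_diagonal_equiv]
      rfl
    rw [h1, Matrix.conjTranspose_submatrix, Matrix.submatrix_mul_equiv, Matrix.submatrix_mul_equiv]
    simp

lemma conj_pow {V : Matrix (Fin n) (Fin n) ℂ} (hV : IsU V) (b : Fin n → ℝ) (k : ℕ) :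
    (V * dg b * Vᴴ) ^ k = V * dg (fun i => b i ^ k) * Vᴴ := by
  induction k with
  | zero =>
    have : dg (fun i => b i ^ 0) = (1 : Matrix (Fin n) (Fin n) ℂ) := by
      simp [dg]
    rw [this, pow_zero, Matrix.mul_one, hV.2]
  | succ k ih =>
    rw [pow_succ, ih, conj_mul_conj hV.1, dg_mul_dg]
    congr 3

lemma trace_conj_pow {V : Matrix (Fin n) (Fin n) ℂ} (hV : IsU V) (b : Fin n → ℝ) (k : ℕ) :
    Matrix.trace ((V * dg b * Vᴴ) ^ k) = ((∑ i, b i ^ k : ℝ) : ℂ) := by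
  rw [conj_pow hV, trace_conj hV.1, trace_dg]

/-- A Hermitian matrix is determined up to unitary equivalence by `n` power traces. -/
lemma exists_diag_of_traces {H : Matrix (Fin n) (Fin n) ℂ} (hH : H.IsHermitian) {γ : Fin n → ℝ}
    (h : ∀ k, 1 ≤ k → k ≤ n → Matrix.trace (H ^ k) = ((∑ i, γ i ^ k : ℝ) : ℂ)) :
    ∃ W : Matrix (Fin n) (Fin n) ℂ, IsU W ∧ H = W * dg γ * Wᴴ := by
  obtain ⟨V, hV, hHV⟩ := exists_diag hH
  obtain ⟨σ, hσ⟩ := exists_perm_of_psum_eq (f := hH.eigenvalues) (g := γ) (by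
    intro k h1 h2
    have h3 := h k h1 h2
    rw [hHV, trace_conj_pow hV] at h3
    exact_mod_cast h3)
  obtain ⟨W, hW, hW2⟩ := conj_perm hV hH.eigenvalues σ
  exact ⟨W, hW, by rw [hσ] at hW2; rw [← hW2]; exact hHV⟩

lemma perm_of_conj_eq {V V' : Matrix (Fin n) (Fin n) ℂ} (hV : IsU V) (hV' : IsU V')
    {b b' : Fin n → ℝ} (h : V * dg b * Vᴴ = V' * dg b' * V'ᴴ) :
    ∃ σ : Equiv.Perm (Fin n), b ∘ σ = b' := by
  apply exists_perm_of_psum_eq
  intro k _ _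
  have h1 := trace_conj_pow hV b k
  rw [h, trace_conj_pow hV'] at h1
  exact_mod_cast h1.symm

end Pool.Agent.Helper44.Cart
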