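import Mathlib

set_option autoImplicit false

open Matrix Complex

namespace Pool.Agent.Helper44.Cart

variable {n : ℕ}

/-- real diagonal matrix -/
noncomputable def dg (a : Fin n → ℝ) : Matrix (Fin n) (Fin n) ℂ :=
  Matrix.diagonal (fun i => (a i : ℂ))

lemma dg_isHermitian (a : Fin n → ℝ) : (dg a).IsHermitian := by
  unfold dg
  rw [Matrix.IsHermitian, Matrix.diagonal_conjTranspose]
  congr 1
  ext i
  simp

/-- A matrix commuting with a diagonal matrix with distinct entries is diagonal. -/
lemma offdiag_zero_of_commute {c : Fin n → ℝ} (hc : Function.Injective c)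
    {X : Matrix (Fin n) (Fin n) ℂ} (h : dg c * X = X * dg c) {j k : Fin n} (hjk : j ≠ k) :
    X j k = 0 := by
  have h1 := congrFun (congrFun h j) k
  simp only [dg, Matrix.diagonal_mul, Matrix.mul_diagonal] at h1
  have h2 : ((c j : ℂ) - c k) * X j k = 0 := by
    rw [sub_mul, h1]; ring
  rcases mul_eq_zero.1 h2 with h3 | h3
  · exfalso
    apply hjk
    apply hc
    exact_mod_cast sub_eq_zero.1 h3
  · exact h3

lemma unitary_conj_commute {W D X : Matrix (Fin n) (Fin n) ℂ} {d : Fin n → ℝ}
    (hW : Wᴴ * W = 1) (hD : D = W * dg d * Wᴴ) (h : D * X = X * D) :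
    dg d * (Wᴴ * X * W) = (Wᴴ * X * W) * dg d := by
  have h1 : Wᴴ * (D * X) * W = Wᴴ * (X * D) * W := by rw [h]
  rw [hD] at h1
  have e1 : Wᴴ * (W * dg d * Wᴴ * X) * W = (Wᴴ * W) * dg d * (Wᴴ * X * W) := by
    simp only [Matrix.mul_assoc]
  have e2 : Wᴴ * (X * (W * dg d * Wᴴ)) * W = (Wᴴ * X * W) * dg d * (Wᴴ * W) := by
    simp only [Matrix.mul_assoc]
  rw [e1, e2, hW, Matrix.one_mul, Matrix.mul_one] at h1
  exact h1

/-- The algebraic identity behind the key lemma. -/
lemma key_identity (C D M : Matrix (Fin n) (Fin n) ℂ)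
    (hZ : (C * C + D * D + I • (C * D - D * C)) * M = M * (C * C + D * D + I • (C * D - D * C))) :
    C * (D * M + M * D + I • (M * C - C * M)) + (D * M + M * D + I • (M * C - C * M)) * C
      = D * (C * M + M * C + I • (D * M - M * D)) + (C * M + M * C + I • (D * M - M * D)) * D := by
  have hII : (I : ℂ) * I = -1 := I_mul_I
  have key : (C * (D * M + M * D + I • (M * C - C * M)) + (D * M + M * D + I • (M * C - C * M)) * C)
      - (D * (C * M + M * C + I • (D * M - M * D)) + (C * M + M * C + I • (D * M - M * D)) * D)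
      = -(I • ((C * C + D * D + I • (C * D - D * C)) * M - M * (C * C + D * D + I • (C * D - D * C)))) := by
    simp only [mul_add, add_mul, mul_sub, sub_mul, smul_add, smul_sub, mul_smul_comm, smul_mul_assoc,
      smul_smul, hII, neg_smul, one_smul, mul_assoc]
    abel
  rw [hZ, sub_self, smul_zero, neg_zero] at key
  exact sub_eq_zero.1 key

/-- Diagonal entries of `Wᴴ * dg v * W`. -/
lemma conj_diag_apply (W : Matrix (Fin n) (Fin n) ℂ) (v : Fin n → ℝ) (j : Fin n) :
    (Wᴴ * dg v * W) j j = ((∑ k, v k * ‖W k j‖ ^ 2 : ℝ) : ℂ) := by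
  rw [Matrix.mul_apply]
  push_cast
  apply Finset.sum_congr rfl
  intro k _
  rw [dg, Matrix.mul_diagonal, Matrix.conjTranspose_apply]
  have : star (W k j) * W k j = ((‖W k j‖ : ℂ)) ^ 2 := by
    simpa using Complex.conj_mul' (W k j)
  rw [mul_comm (star (W k j)) _, mul_assoc, this]

/-- entries of `W * dg v * Wᴴ`. -/
lemma conj_diag_apply' (W : Matrix (Fin n) (Fin n) ℂ) (v : Fin n → ℝ) (j l : Fin n) :
    (W * dg v * Wᴴ) j l = ∑ k, W j k * v k * star (W l k) := by
  rw [Matrix.mul_apply]
  apply Finset.sum_congr rfl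
  intro k _
  rw [dg, Matrix.mul_diagonal, Matrix.conjTranspose_apply]

/-- **Key lemma**: a critical configuration is scalar or reducible. -/
theorem key {c d : Fin n → ℝ} (hc : ∀ i, 0 < c i) (hcinj : Function.Injective c)
    (hd : ∀ i, 0 < d i) (hdinj : Function.Injective d) {W M C D : Matrix (Fin n) (Fin n) ℂ}
    (hW : Wᴴ * W = 1) (hW' : W * Wᴴ = 1) (hM : M.IsHermitian)
    (hC : C = dg c) (hD : D = W * dg d * Wᴴ)
    (hV : C * (C * M + M * C + I • (D * M - M * D)) = (C * M + M * C + I • (D * M - M * D)) * C)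
    (hN : D * (D * M + M * D + I • (M * C - C * M)) = (D * M + M * D + I • (M * C - C * M)) * D)
    (hZ : (C * C + D * D + I • (C * D - D * C)) * M = M * (C * C + D * D + I • (C * D - D * C))) :
    (∃ μ : ℝ, M = (μ : ℂ) • (1 : Matrix (Fin n) (Fin n) ℂ)) ∨
      ∃ S : Finset (Fin n), S.Nonempty ∧ S ≠ Finset.univ ∧ ∀ j ∈ S, ∀ k, k ∉ S → D j k = 0 := by
  rcases Nat.eq_zero_or_pos n with hn | hn
  · subst hn
    left
    exact ⟨0, by ext i; exact i.elim0⟩
  have : Nonempty (Fin n) := ⟨⟨0, hn⟩⟩
  have hCh : C.IsHermitian := by rw [hC]; exact dg_isHermitian c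
  have hDh : D.IsHermitian := by
    rw [hD]; exact Matrix.isHermitian_mul_mul_conjTranspose W (dg_isHermitian d)
  set V := C * M + M * C + I • (D * M - M * D) with hVdef
  set N := D * M + M * D + I • (M * C - C * M) with hNdef
  have hVh : V.IsHermitian := by
    rw [Matrix.IsHermitian, hVdef]
    simp only [Matrix.conjTranspose_add, Matrix.conjTranspose_mul, Matrix.conjTranspose_smul,
      Matrix.conjTranspose_sub, hCh.eq, hDh.eq, hM.eq]
    have : star I = -I := by simp
    rw [this, neg_smul, smul_sub, smul_sub]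
    abel
  have hVoff : ∀ j k, j ≠ k → V j k = 0 := fun j k hjk =>
    offdiag_zero_of_commute hcinj (by rw [← hC]; exact hV) hjk
  have hVreal : ∀ j, V j j = ((V j j).re : ℂ) := by
    intro j
    have := hVh.apply j j
    exact (Complex.conj_eq_iff_real.1 this).elim (fun r hr => by rw [hr]; simp)
  obtain ⟨j0, hj0⟩ := Finite.exists_max (fun j => (V j j).re / (2 * c j))
  set μ : ℝ := (V j0 j0).re / (2 * c j0) with hμ
  set v' : Fin n → ℝ := fun j => 2 * μ * c j - (V j j).re with hv'
  have hv'nn : ∀ j, 0 ≤ v' j := by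
    intro j
    have h1 := hj0 j
    have h2 : (V j j).re / (2 * c j) ≤ μ := h1
    have h3 : 0 < 2 * c j := by linarith [hc j]
    rw [div_le_iff₀ h3] at h2
    simp only [hv']
    linarith
  have hv'0 : v' j0 = 0 := by
    simp only [hv', hμ]
    have := (hc j0).ne'
    field_simp
    ring
  set M' := (μ : ℂ) • (1 : Matrix (Fin n) (Fin n) ℂ) - M with hM'
  have hV' : C * M' + M' * C + I • (D * M' - M' * D) = dg v' := by
    have e1 : C * M' + M' * C + I • (D * M' - M' * D) = (2 * μ : ℂ) • C - V := by
      rw [hM', hVdef]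
      simp only [mul_sub, sub_mul, mul_smul_comm, smul_mul_assoc, mul_one, one_mul]
      rw [two_mul, add_smul]
      module
    rw [e1]
    ext j k
    by_cases hjk : j = k
    · subst hjk
      rw [Matrix.sub_apply, hVreal j, Matrix.smul_apply, hC]
      simp [dg, hv']
    · rw [Matrix.sub_apply, hVoff j k hjk, Matrix.smul_apply, hC]
      simp [dg, hjk]
  set N' := D * M' + M' * D + I • (M' * C - C * M') with hN'
  have hN'comm : D * N' = N' * D := by
    have e1 : N' = (2 * μ : ℂ) • D - N := by
      rw [hN', hM', hNdef]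
      simp only [mul_sub, sub_mul, mul_smul_comm, smul_mul_assoc, mul_one, one_mul]
      rw [two_mul, add_smul]
      module
    rw [e1, mul_sub, sub_mul, mul_smul_comm, smul_mul_assoc, hN]
  have hstar : C * N' + N' * C = D * dg v' + dg v' * D := by
    rw [← hV']
    apply key_identity
    rw [hM', mul_sub, sub_mul, hZ, mul_smul_comm, smul_mul_assoc, mul_one, one_mul]
  -- conjugation by `W`
  have hN''off : ∀ j k, j ≠ k → (Wᴴ * N' * W) j k = 0 := fun j k hjk =>
    offdiag_zero_of_commute hdinj (unitary_conj_commute hW hD hN'comm) hjk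
  have hstar'' : (Wᴴ * C * W) * (Wᴴ * N' * W) + (Wᴴ * N' * W) * (Wᴴ * C * W)
      = dg d * (Wᴴ * dg v' * W) + (Wᴴ * dg v' * W) * dg d := by
    have h1 : Wᴴ * (C * N' + N' * C) * W = Wᴴ * (D * dg v' + dg v' * D) * W := by rw [hstar]
    have e1 : Wᴴ * (C * N' + N' * C) * W
        = (Wᴴ * C * W) * (Wᴴ * N' * W) + (Wᴴ * N' * W) * (Wᴴ * C * W) := by
      have a1 : (Wᴴ * C * W) * (Wᴴ * N' * W) = Wᴴ * C * (W * Wᴴ) * N' * W := by
        simp only [Matrix.mul_assoc]
      have a2 : (Wᴴ * N' * W) * (Wᴴ * C * W) = Wᴴ * N' * (W * Wᴴ) * C * W := by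
        simp only [Matrix.mul_assoc]
      rw [a1, a2, hW']
      simp only [Matrix.mul_add, Matrix.add_mul, Matrix.mul_one, Matrix.mul_assoc]
    have e2 : Wᴴ * (D * dg v' + dg v' * D) * W
        = dg d * (Wᴴ * dg v' * W) + (Wᴴ * dg v' * W) * dg d := by
      have a1 : Wᴴ * (D * dg v') * W = (Wᴴ * W) * dg d * (Wᴴ * dg v' * W) := by
        rw [hD]; simp only [Matrix.mul_assoc]
      have a2 : Wᴴ * (dg v' * D) * W = (Wᴴ * dg v' * W) * dg d * (Wᴴ * W) := by
        rw [hD]; simp only [Matrix.mul_assoc]
      rw [Matrix.mul_add, Matrix.add_mul, a1, a2, hW, Matrix.one_mul, Matrix.mul_one]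
    rw [← e1, ← e2, h1]
  set q : Fin n → ℝ := fun j => ∑ k, c k * ‖W k j‖ ^ 2 with hq
  set p : Fin n → ℝ := fun j => ∑ k, v' k * ‖W k j‖ ^ 2 with hp
  have hqpos : ∀ j, 0 < q j := by
    intro j
    have h1 : (Wᴴ * W) j j = 1 := by rw [hW]; simp
    rw [Matrix.mul_apply] at h1
    have h2 : ∃ k, W k j ≠ 0 := by
      by_contra hcon
      push Not at hcon
      rw [Finset.sum_eq_zero (fun k _ => by rw [hcon k, mul_zero])] at h1
      exact zero_ne_one h1
    obtain ⟨k, hk⟩ := h2
    apply Finset.sum_pos'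
    · intro i _
      exact mul_nonneg (hc i).le (by positivity)
    · exact ⟨k, Finset.mem_univ _, mul_pos (hc k) (by positivity)⟩
  have hpnn : ∀ j, 0 ≤ p j := fun j => Finset.sum_nonneg (fun k _ => mul_nonneg (hv'nn k) (by positivity))
  have hN''diag : Wᴴ * N' * W = dg (fun j => d j * p j / q j) := by
    ext j k
    by_cases hjk : j = k
    · subst hjk
      have h1 := congrFun (congrFun hstar'' j) j
      rw [Matrix.add_apply, Matrix.add_apply, Matrix.mul_apply, Matrix.mul_apply,
        Finset.sum_eq_single j, Finset.sum_eq_single j] at h1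
      · rw [hC, conj_diag_apply, dg, Matrix.diagonal_mul, Matrix.mul_diagonal] at h1
        have h2 : (Wᴴ * dg v' * W) j j = (p j : ℂ) := conj_diag_apply W v' j
        have h3 : ((∑ k, c k * ‖W k j‖ ^ 2 : ℝ) : ℂ) = (q j : ℂ) := rfl
        rw [h2, h3] at h1
        have hq0 : (q j : ℂ) ≠ 0 := by exact_mod_cast (hqpos j).ne'
        have h4 : (Wᴴ * N' * W) j j = (d j : ℂ) * p j / q j := by
          rw [eq_div_iff hq0]
          linear_combination (1/2 : ℂ) * h1
        rw [h4, dg, Matrix.diagonal_apply_eq]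
        push_cast
        ring
      · intro b _ hb
        rw [hN''off j b (Ne.symm hb), zero_mul]
      · intro h; exact absurd (Finset.mem_univ _) h
      · intro b _ hb
        rw [hN''off b j hb, mul_zero]
      · intro h; exact absurd (Finset.mem_univ _) h
    · rw [hN''off j k hjk, dg, Matrix.diagonal_apply_ne _ hjk]
  set ν : Fin n → ℝ := fun j => d j * p j / q j with hν
  have hνnn : ∀ j, 0 ≤ ν j := fun j => div_nonneg (mul_nonneg (hd j).le (hpnn j)) (hqpos j).le
  have hN'eq : N' = W * dg ν * Wᴴ := by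
    rw [← hN''diag]
    have : W * (Wᴴ * N' * W) * Wᴴ = (W * Wᴴ) * N' * (W * Wᴴ) := by simp only [Matrix.mul_assoc]
    rw [this, hW', Matrix.one_mul, Matrix.mul_one]
  have hrow : ∀ j, v' j = 0 → ∀ l, N' j l = 0 := by
    intro j hj l
    have h1 := congrFun (congrFun hstar j) j
    rw [hC, Matrix.add_apply, Matrix.add_apply, dg, dg, Matrix.diagonal_mul, Matrix.mul_diagonal,
      Matrix.mul_diagonal, Matrix.diagonal_mul, hj] at h1
    have h2 : N' j j = 0 := by
      have h3 : (c j : ℂ) ≠ 0 := by exact_mod_cast (hc j).ne'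
      have h4 : (c j : ℂ) * N' j j = 0 := by
        have : (c j : ℂ) * N' j j + N' j j * c j = 0 := by rw [h1]; simp
        linear_combination (1/2 : ℂ) * this
      exact (mul_eq_zero.1 h4).resolve_left h3
    rw [hN'eq, conj_diag_apply'] at h2
    have h5 : (∑ k, ν k * ‖W j k‖ ^ 2 : ℝ) = 0 := by
      have : ((∑ k, ν k * ‖W j k‖ ^ 2 : ℝ) : ℂ) = 0 := by
        rw [← h2]
        push_cast
        apply Finset.sum_congr rfl
        intro k _
        have : W j k * star (W j k) = ((‖W j k‖ : ℂ)) ^ 2 := by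
          simpa using Complex.mul_conj' (W j k)
        rw [mul_right_comm, this]; ring
      exact_mod_cast this
    have h6 := (Finset.sum_eq_zero_iff_of_nonneg (fun k _ => mul_nonneg (hνnn k) (by positivity))).1 h5
    rw [hN'eq, conj_diag_apply']
    apply Finset.sum_eq_zero
    intro k hk
    have h7 := h6 k hk
    rcases mul_eq_zero.1 h7 with h8 | h8
    · rw [h8]; simp
    · have : W j k = 0 := by simpa using h8
      rw [this]; simp
  have hblock : ∀ j, v' j = 0 → ∀ l, v' l ≠ 0 → D j l = 0 := by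
    intro j hj l hl
    have h1 := congrFun (congrFun hstar j) l
    rw [hC, Matrix.add_apply, Matrix.add_apply, dg, dg, Matrix.diagonal_mul, Matrix.mul_diagonal,
      Matrix.mul_diagonal, Matrix.diagonal_mul, hj, hrow j hj l] at h1
    have h2 : D j l * (v' l : ℂ) = 0 := by
      simpa using h1.symm
    rcases mul_eq_zero.1 h2 with h3 | h3
    · exact h3
    · exact absurd (by exact_mod_cast h3) hl
  by_cases hall : ∀ j, v' j = 0
  · -- scalar case
    left
    refine ⟨μ, ?_⟩
    have hN'0 : N' = 0 := by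
      ext j l
      exact hrow j (hall j) l
    have hV'0 : C * M' + M' * C + I • (D * M' - M' * D) = 0 := by
      rw [hV']
      ext j k
      simp [dg, hall, Matrix.diagonal_apply]
    have hM'h : M'.IsHermitian := by
      rw [Matrix.IsHermitian, hM', Matrix.conjTranspose_sub, Matrix.conjTranspose_smul, hM.eq]
      simp
    have hsum : C * M' + I • (D * M') = 0 := by
      have e : C * M' + I • (D * M') = (1/2 : ℂ) • ((C * M' + M' * C + I • (D * M' - M' * D)) + I • N') := by
        rw [hN']
        simp only [smul_add, smul_sub, smul_smul]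
        have hII : (1/2 : ℂ) * (I * I) = -(1/2) := by rw [I_mul_I]; ring
        have h3 : (1/2 : ℂ) * I * I = -(1/2) := by rw [mul_assoc, hII]
        simp only [hII]
        module
      rw [e, hV'0, hN'0]
      simp
    have hpos : M' * C * M' = 0 := by
      have e1 : M' * C * M' + I • (M' * D * M') = 0 := by
        have := congrArg (fun Z => M' * Z) hsum
        simpa [Matrix.mul_add, Matrix.mul_assoc] using this
      have e2 : M' * C * M' - I • (M' * D * M') = 0 := by
        have := congrArg Matrix.conjTranspose e1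
        simp only [Matrix.conjTranspose_add, Matrix.conjTranspose_mul, Matrix.conjTranspose_smul,
          hCh.eq, hDh.eq, hM'h.eq, Matrix.conjTranspose_zero] at this
        have hI : star I = -I := by simp
        rw [hI, neg_smul, ← sub_eq_add_neg] at this
        simpa [Matrix.mul_assoc] using this
      have e3 : (2 : ℂ) • (M' * C * M') = 0 := by
        have := congrArg₂ (· + ·) e1 e2
        simp only [add_zero] at this
        rw [two_smul, ← this]
        abel
      simpa using e3
    have hM'0 : M' = 0 := by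
      ext j k
      have h1 := congrFun (congrFun hpos k) k
      have h2 : M' * C * M' = M'ᴴ * dg c * M' := by rw [hM'h.eq, hC]
      rw [h2, conj_diag_apply] at h1
      have h3 : (∑ i, c i * ‖M' i k‖ ^ 2 : ℝ) = 0 := by
        have : ((∑ i, c i * ‖M' i k‖ ^ 2 : ℝ) : ℂ) = 0 := by rw [h1]; rfl
        exact_mod_cast this
      have h4 := (Finset.sum_eq_zero_iff_of_nonneg (fun i _ => mul_nonneg (hc i).le (by positivity))).1 h3
      have h5 := h4 j (Finset.mem_univ j)
      rcases mul_eq_zero.1 h5 with h6 | h6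
      · exact absurd h6 (hc j).ne'
      · simpa using h6
    rw [hM', sub_eq_zero] at hM'0
    exact hM'0.symm
  · right
    refine ⟨Finset.univ.filter (fun j => v' j = 0), ⟨j0, by simp [hv'0]⟩, ?_, ?_⟩
    · intro h
      apply hall
      intro j
      have : j ∈ Finset.univ.filter (fun j => v' j = 0) := by rw [h]; exact Finset.mem_univ j
      simpa using this
    · intro j hj k hk
      simp only [Finset.mem_filter, Finset.mem_univ, true_and] at hj hk
      exact hblock j hj k hk

end Pool.Agent.Helper44.Cart
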