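import Pool.Agent.Helper44.Cart.Key

set_option autoImplicit false

open Matrix Complex

namespace Pool.Agent.Helper44.Cart

variable {n : ℕ}

/-- The interpolating map: `κ = 0` is the sum, `κ = 1` is `|A + iB|²`. -/
noncomputable def Fk (κ : ℝ) (A B : Matrix (Fin n) (Fin n) ℂ) : Matrix (Fin n) (Fin n) ℂ :=
  ((1 - κ : ℝ) : ℂ) • (A + B) + (κ : ℂ) • (A * A + B * B + I • (A * B - B * A))

noncomputable def Tk (κ : ℝ) (A : Matrix (Fin n) (Fin n) ℂ) : Matrix (Fin n) (Fin n) ℂ :=
  ((1 - κ : ℝ) : ℂ) • A + (κ : ℂ) • (A * A)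

/-- The scalar function attached to `Tk`. -/
def tk (κ x : ℝ) : ℝ := (1 - κ) * x + κ * x ^ 2

lemma dg_mul_dg (a b : Fin n → ℝ) : dg a * dg b = dg (fun i => a i * b i) := by
  unfold dg
  rw [Matrix.diagonal_mul_diagonal]
  congr 1
  ext i
  push_cast; rfl

lemma smul_dg (r : ℝ) (a : Fin n → ℝ) : (r : ℂ) • dg a = dg (fun i => r * a i) := by
  unfold dg
  rw [← Matrix.diagonal_smul]
  congr 1
  ext i
  simp

lemma dg_add_dg (a b : Fin n → ℝ) : dg a + dg b = dg (fun i => a i + b i) := by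
  unfold dg
  rw [Matrix.diagonal_add]
  congr 1
  ext i
  push_cast; rfl

lemma dg_const (r : ℝ) : dg (fun _ : Fin n => r) = (r : ℂ) • (1 : Matrix (Fin n) (Fin n) ℂ) := by
  unfold dg
  rw [Matrix.smul_one_eq_diagonal]

lemma Tk_dg (κ : ℝ) (a : Fin n → ℝ) : Tk κ (dg a) = dg (fun i => tk κ (a i)) := by
  unfold Tk tk
  rw [dg_mul_dg, smul_dg, smul_dg, dg_add_dg]
  congr 1
  ext i
  ring

lemma conj_mul_conj {W X Y : Matrix (Fin n) (Fin n) ℂ} (hW : Wᴴ * W = 1) :
    (W * X * Wᴴ) * (W * Y * Wᴴ) = W * (X * Y) * Wᴴ := by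
  have : (W * X * Wᴴ) * (W * Y * Wᴴ) = W * X * (Wᴴ * W) * Y * Wᴴ := by
    simp only [Matrix.mul_assoc]
  rw [this, hW, Matrix.mul_one]
  simp only [Matrix.mul_assoc]

lemma Tk_conj {W X : Matrix (Fin n) (Fin n) ℂ} (hW : Wᴴ * W = 1) (κ : ℝ) :
    Tk κ (W * X * Wᴴ) = W * Tk κ X * Wᴴ := by
  unfold Tk
  rw [conj_mul_conj hW]
  simp only [Matrix.mul_add, Matrix.add_mul, Matrix.mul_smul, Matrix.smul_mul]

lemma Fk_conj {W X Y : Matrix (Fin n) (Fin n) ℂ} (hW : Wᴴ * W = 1) (κ : ℝ) :
    Fk κ (W * X * Wᴴ) (W * Y * Wᴴ) = W * Fk κ X Y * Wᴴ := by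
  unfold Fk
  rw [conj_mul_conj hW, conj_mul_conj hW, conj_mul_conj hW, conj_mul_conj hW]
  simp only [Matrix.mul_add, Matrix.add_mul, Matrix.mul_smul, Matrix.smul_mul, Matrix.mul_sub,
    Matrix.sub_mul]

lemma Fk_eq (κ : ℝ) (A B : Matrix (Fin n) (Fin n) ℂ) :
    Fk κ A B = Tk κ A + Tk κ B + ((κ : ℂ) * I) • (A * B - B * A) := by
  unfold Fk Tk
  module

lemma Fk_isHermitian {κ : ℝ} {A B : Matrix (Fin n) (Fin n) ℂ} (hA : A.IsHermitian)
    (hB : B.IsHermitian) : (Fk κ A B).IsHermitian := by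
  unfold Fk
  rw [Matrix.IsHermitian]
  simp only [Matrix.conjTranspose_add, Matrix.conjTranspose_mul, Matrix.conjTranspose_smul,
      Matrix.conjTranspose_sub, hA.eq, hB.eq]
  have h1 : star I = -I := by simp
  have h2 : ∀ r : ℝ, star (r : ℂ) = r := fun r => by simp
  rw [h1, h2, h2]
  module

/-- The identity expressing unitary invariance. -/
lemma moment_identity (κ : ℝ) (A B M : Matrix (Fin n) (Fin n) ℂ) :
    (A * (((1 - κ : ℝ) : ℂ) • M + (κ : ℂ) • (A * M + M * A + I • (B * M - M * B)))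
      - (((1 - κ : ℝ) : ℂ) • M + (κ : ℂ) • (A * M + M * A + I • (B * M - M * B))) * A)
    + (B * (((1 - κ : ℝ) : ℂ) • M + (κ : ℂ) • (B * M + M * B + I • (M * A - A * M)))
      - (((1 - κ : ℝ) : ℂ) • M + (κ : ℂ) • (B * M + M * B + I • (M * A - A * M))) * B)
    = Fk κ A B * M - M * Fk κ A B := by
  unfold Fk
  simp only [mul_add, add_mul, mul_sub, sub_mul, smul_add, smul_sub, mul_smul_comm, smul_mul_assoc,
      smul_smul, mul_assoc]
  abel

lemma affine_comm (e κ : ℂ) {X Y : Matrix (Fin n) (Fin n) ℂ} (h : X * Y = Y * X) :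
    (e • 1 + κ • X) * Y = Y * (e • 1 + κ • X) := by
  rw [add_mul, mul_add, smul_mul_assoc, smul_mul_assoc, mul_smul_comm, mul_smul_comm, one_mul,
    mul_one, h]

/-- Key lemma for the interpolating family. -/
theorem keyK {κ : ℝ} (hκ0 : 0 ≤ κ) (hκ1 : κ ≤ 1) {a b : Fin n → ℝ} (ha : ∀ i, 0 < a i)
    (hainj : Function.Injective a) (hb : ∀ i, 0 < b i) (hbinj : Function.Injective b)
    {W M A B : Matrix (Fin n) (Fin n) ℂ} (hW : Wᴴ * W = 1) (hW' : W * Wᴴ = 1)
    (hM : M.IsHermitian) (hA : A = dg a) (hB : B = W * dg b * Wᴴ)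
    (hF : Fk κ A B * M = M * Fk κ A B)
    (hN : B * (((1 - κ : ℝ) : ℂ) • M + (κ : ℂ) • (B * M + M * B + I • (M * A - A * M)))
      = (((1 - κ : ℝ) : ℂ) • M + (κ : ℂ) • (B * M + M * B + I • (M * A - A * M))) * B) :
    (∃ μ : ℝ, M = (μ : ℂ) • (1 : Matrix (Fin n) (Fin n) ℂ)) ∨
      ∃ S : Finset (Fin n), S.Nonempty ∧ S ≠ Finset.univ ∧ ∀ j ∈ S, ∀ k, k ∉ S → B j k = 0 := by
  have hV : A * (((1 - κ : ℝ) : ℂ) • M + (κ : ℂ) • (A * M + M * A + I • (B * M - M * B)))
      = (((1 - κ : ℝ) : ℂ) • M + (κ : ℂ) • (A * M + M * A + I • (B * M - M * B))) * A := by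
    have h := moment_identity κ A B M
    rw [hN, sub_self, add_zero, hF, sub_self] at h
    exact sub_eq_zero.1 h
  rcases hκ0.eq_or_lt with h0 | h0
  · -- `κ = 0`
    subst h0
    simp only [sub_zero, ofReal_one, one_smul, ofReal_zero, zero_smul, add_zero] at hV hN
    rcases Nat.eq_zero_or_pos n with hn | hn
    · subst hn
      left
      exact ⟨0, by ext i; exact i.elim0⟩
    have hoff : ∀ j k, j ≠ k → M j k = 0 := fun j k hjk =>
      offdiag_zero_of_commute hainj (by rw [← hA]; exact hV) hjk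
    set j0 : Fin n := ⟨0, hn⟩
    by_cases hall : ∀ j, M j j = M j0 j0
    · left
      refine ⟨(M j0 j0).re, ?_⟩
      have hr : M j0 j0 = ((M j0 j0).re : ℂ) := by
        have := hM.apply j0 j0
        exact (Complex.conj_eq_iff_real.1 this).elim (fun r hr => by rw [hr]; simp)
      ext j k
      by_cases hjk : j = k
      · subst hjk
        rw [hall j, hr]; simp
      · rw [hoff j k hjk]; simp [hjk]
    · right
      push Not at hall
      obtain ⟨j1, hj1⟩ := hall
      classical
      refine ⟨Finset.univ.filter (fun j => M j j = M j0 j0), ⟨j0, by simp⟩, ?_, ?_⟩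
      · intro h
        have : j1 ∈ Finset.univ.filter (fun j => M j j = M j0 j0) := by
          rw [h]; exact Finset.mem_univ _
        simp at this
        exact hj1 this
      · intro j hj k hk
        simp only [Finset.mem_filter, Finset.mem_univ, true_and] at hj hk
        have h1 := congrFun (congrFun hN j) k
        rw [Matrix.mul_apply, Matrix.mul_apply, Finset.sum_eq_single k, Finset.sum_eq_single j] at h1
        · have h2 : B j k * (M k k - M j j) = 0 := by
            rw [mul_sub, h1]; ring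
          rcases mul_eq_zero.1 h2 with h3 | h3
          · exact h3
          · exfalso
            apply hk
            rw [sub_eq_zero.1 h3, hj]
        · intro i _ hi
          rw [hoff j i (Ne.symm hi), zero_mul]
        · intro h; exact absurd (Finset.mem_univ _) h
        · intro i _ hi
          rw [hoff i k hi, mul_zero]
        · intro h; exact absurd (Finset.mem_univ _) h
  · -- `κ > 0`
    set e : ℝ := (1 - κ) / 2 with he
    have he0 : 0 ≤ e := by rw [he]; linarith
    set C : Matrix (Fin n) (Fin n) ℂ := (e : ℂ) • 1 + (κ : ℂ) • A with hC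
    set D : Matrix (Fin n) (Fin n) ℂ := (e : ℂ) • 1 + (κ : ℂ) • B with hD
    have hκc : ((1 - κ : ℝ) : ℂ) = 2 * (e : ℂ) := by rw [he]; push_cast; ring
    have hCd : C = dg (fun i => e + κ * a i) := by
      rw [hC, hA, smul_dg, ← dg_const, dg_add_dg]
    have hDd : D = W * dg (fun i => e + κ * b i) * Wᴴ := by
      rw [hD, hB, ← dg_add_dg (fun _ => e) (fun i => κ * b i), dg_const, ← smul_dg]
      simp only [Matrix.mul_add, Matrix.add_mul, Matrix.mul_smul, Matrix.smul_mul, Matrix.mul_one,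
        hW']
    have eV : C * M + M * C + I • (D * M - M * D)
        = ((1 - κ : ℝ) : ℂ) • M + (κ : ℂ) • (A * M + M * A + I • (B * M - M * B)) := by
      rw [hC, hD, hκc]
      simp only [mul_add, add_mul, mul_smul_comm, smul_mul_assoc, mul_one, one_mul]
      module
    have eN : D * M + M * D + I • (M * C - C * M)
        = ((1 - κ : ℝ) : ℂ) • M + (κ : ℂ) • (B * M + M * B + I • (M * A - A * M)) := by
      rw [hC, hD, hκc]
      simp only [mul_add, add_mul, mul_smul_comm, smul_mul_assoc, mul_one, one_mul]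
      module
    have eZ : C * C + D * D + I • (C * D - D * C)
        = ((2 * e ^ 2 : ℝ) : ℂ) • 1 + (κ : ℂ) • Fk κ A B := by
      rw [hC, hD, Fk, hκc]
      simp only [mul_add, add_mul, mul_smul_comm, smul_mul_assoc, mul_one, one_mul]
      push_cast
      module
    have hres := key (c := fun i => e + κ * a i) (d := fun i => e + κ * b i) (W := W) (M := M)
      (C := C) (D := D) (fun i => by have := mul_pos h0 (ha i); linarith)
      (fun i j hij => hainj (by
        have : κ * a i = κ * a j := by simpa using hij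
        exact mul_left_cancel₀ h0.ne' this))
      (fun i => by have := mul_pos h0 (hb i); linarith)
      (fun i j hij => hbinj (by
        have : κ * b i = κ * b j := by simpa using hij
        exact mul_left_cancel₀ h0.ne' this))
      hW hW' hM hCd hDd
      (by rw [eV, hC]; exact affine_comm _ _ hV)
      (by rw [eN, hD]; exact affine_comm _ _ hN)
      (by rw [eZ]; exact affine_comm _ _ hF)
    rcases hres with h | ⟨S, h1, h2, h3⟩
    · left; exact h
    · right
      refine ⟨S, h1, h2, ?_⟩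
      intro j hj k hk
      have h4 := h3 j hj k hk
      have hjk : j ≠ k := fun h => hk (h ▸ hj)
      rw [hD, Matrix.add_apply, Matrix.smul_apply, Matrix.smul_apply, Matrix.one_apply_ne hjk] at h4
      have h5 : (κ : ℂ) * B j k = 0 := by simpa using h4
      rcases mul_eq_zero.1 h5 with h6 | h6
      · exact absurd (by exact_mod_cast h6) h0.ne'
      · exact h6

end Pool.Agent.Helper44.Cart
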