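import Pool.Agent.Helper44.Cart.Diag

set_option autoImplicit false

open Matrix Complex Topology
open scoped Matrix.Norms.Operator

namespace Pool.Agent.Helper44.Cart

variable {n : ℕ}

/-- real-linear map of conjugate transposition -/
noncomputable def starL : Matrix (Fin n) (Fin n) ℂ →L[ℝ] Matrix (Fin n) (Fin n) ℂ :=
  LinearMap.toContinuousLinearMap
    { toFun := fun x => xᴴ
      map_add' := fun x y => Matrix.conjTranspose_add x y
      map_smul' := fun r x => by
        rw [Matrix.conjTranspose_smul]; simp }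

/-- real-linear map of diagonal -/
noncomputable def dgL : (Fin n → ℝ) →L[ℝ] Matrix (Fin n) (Fin n) ℂ :=
  LinearMap.toContinuousLinearMap
    { toFun := fun a => dg a
      map_add' := fun a b => by rw [dg_add_dg]; rfl
      map_smul' := fun r a => by
        ext i j
        by_cases h : i = j
        · subst h; simp [dg]
        · simp [dg, h] }

/-- real part of the trace -/
noncomputable def trL : Matrix (Fin n) (Fin n) ℂ →L[ℝ] ℝ :=
  LinearMap.toContinuousLinearMap
    { toFun := fun a => (Matrix.trace a).re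
      map_add' := fun a b => by rw [Matrix.trace_add]; simp
      map_smul' := fun r a => by
        rw [Matrix.trace_smul]; simp }

lemma starL_apply (x : Matrix (Fin n) (Fin n) ℂ) : starL x = xᴴ := rfl
lemma dgL_apply (a : Fin n → ℝ) : dgL a = dg a := rfl
lemma trL_apply (a : Matrix (Fin n) (Fin n) ℂ) : trL a = (Matrix.trace a).re := rfl

lemma contDiff_mexp : ContDiff ℝ 1 (fun x : Matrix (Fin n) (Fin n) ℂ => NormedSpace.exp x) := by
  rw [contDiff_iff_contDiffAt]
  intro x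
  exact (NormedSpace.exp_analytic (𝕂 := ℝ) x).contDiffAt

/-- parameter space -/
abbrev Par (n : ℕ) := ℝ × (Fin n → ℝ) × (Fin n → ℝ)

noncomputable def Bq (V : Matrix (Fin n) (Fin n) ℂ) (x : Matrix (Fin n) (Fin n) ℂ) (b : Fin n → ℝ) :
    Matrix (Fin n) (Fin n) ℂ :=
  NormedSpace.exp (x - xᴴ) * (V * dg b * Vᴴ) * NormedSpace.exp (-(x - xᴴ))

noncomputable def Fq (V : Matrix (Fin n) (Fin n) ℂ) (q : Matrix (Fin n) (Fin n) ℂ × Par n) :
    Matrix (Fin n) (Fin n) ℂ :=
  Fk q.2.1 (dg q.2.2.1) (Bq V q.1 q.2.2.2)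

lemma contDiff_Fq (V : Matrix (Fin n) (Fin n) ℂ) : ContDiff ℝ 1 (Fq V) := by
  have hx : ContDiff ℝ 1 (fun q : Matrix (Fin n) (Fin n) ℂ × Par n => q.1 - starL q.1) := by
    fun_prop
  have he1 : ContDiff ℝ 1 (fun q : Matrix (Fin n) (Fin n) ℂ × Par n =>
      NormedSpace.exp (q.1 - starL q.1)) := contDiff_mexp.comp hx
  have he2 : ContDiff ℝ 1 (fun q : Matrix (Fin n) (Fin n) ℂ × Par n =>
      NormedSpace.exp (-(q.1 - starL q.1))) := contDiff_mexp.comp hx.neg
  have hb : ContDiff ℝ 1 (fun q : Matrix (Fin n) (Fin n) ℂ × Par n => dgL q.2.2.2) := by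
    fun_prop
  have ha : ContDiff ℝ 1 (fun q : Matrix (Fin n) (Fin n) ℂ × Par n => dgL q.2.2.1) := by
    fun_prop
  have hB : ContDiff ℝ 1 (fun q : Matrix (Fin n) (Fin n) ℂ × Par n =>
      NormedSpace.exp (q.1 - starL q.1) * (V * dgL q.2.2.2 * Vᴴ) *
        NormedSpace.exp (-(q.1 - starL q.1))) := by
    exact (he1.mul ((contDiff_const.mul hb).mul contDiff_const)).mul he2
  have hk : ContDiff ℝ 1 (fun q : Matrix (Fin n) (Fin n) ℂ × Par n => q.2.1) := by
    fun_prop
  have hF : ContDiff ℝ 1 (fun q : Matrix (Fin n) (Fin n) ℂ × Par n =>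
      (1 - q.2.1) • (dgL q.2.2.1 + (NormedSpace.exp (q.1 - starL q.1) * (V * dgL q.2.2.2 * Vᴴ) *
        NormedSpace.exp (-(q.1 - starL q.1)))) + q.2.1 •
      (dgL q.2.2.1 * dgL q.2.2.1 + (NormedSpace.exp (q.1 - starL q.1) * (V * dgL q.2.2.2 * Vᴴ) *
        NormedSpace.exp (-(q.1 - starL q.1))) * (NormedSpace.exp (q.1 - starL q.1) *
        (V * dgL q.2.2.2 * Vᴴ) * NormedSpace.exp (-(q.1 - starL q.1))) +
      (I • (1 : Matrix (Fin n) (Fin n) ℂ)) * (dgL q.2.2.1 * (NormedSpace.exp (q.1 - starL q.1) *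
      (V * dgL q.2.2.2 * Vᴴ) * NormedSpace.exp (-(q.1 - starL q.1))) -
      (NormedSpace.exp (q.1 - starL q.1) * (V * dgL q.2.2.2 * Vᴴ) *
        NormedSpace.exp (-(q.1 - starL q.1))) * dgL q.2.2.1))) := by
    exact ((contDiff_const.sub hk).smul (ha.add hB)).add
      (hk.smul (((ha.mul ha).add (hB.mul hB)).add
        (contDiff_const.mul ((ha.mul hB).sub (hB.mul ha)))))
  convert hF using 1
  ext1 q
  unfold Fq Fk Bq
  simp only [starL_apply, dgL_apply, smul_mul_assoc, one_mul]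
  have e : ∀ (r : ℝ) (X : Matrix (Fin n) (Fin n) ℂ), (r : ℂ) • X = r • X := by
    intro r X
    ext i j
    simp
  rw [e, e]

end Pool.Agent.Helper44.Cart
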