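import Pool.Agent.Helper44.Cart.Local

set_option autoImplicit false

open Matrix Complex Topology
open scoped Matrix.Norms.Operator

namespace Pool.Agent.Helper44.Cart

variable {n : ℕ}

lemma exp_skew {K : Matrix (Fin n) (Fin n) ℂ} (hK : Kᴴ = -K) :
    (NormedSpace.exp K)ᴴ = NormedSpace.exp (-K) := by
  rw [← Matrix.exp_conjTranspose, hK]

lemma isU_exp {K : Matrix (Fin n) (Fin n) ℂ} (hK : Kᴴ = -K) : IsU (NormedSpace.exp K) := by
  apply isU_of_left
  rw [exp_skew hK, ← Matrix.exp_add_of_commute (-K) K ((Commute.refl K).neg_left), neg_add_cancel,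
    NormedSpace.exp_zero]

lemma skew_sub (x : Matrix (Fin n) (Fin n) ℂ) : (x - xᴴ)ᴴ = -(x - xᴴ) := by
  rw [Matrix.conjTranspose_sub, Matrix.conjTranspose_conjTranspose]; abel

lemma Bq_eq (V x : Matrix (Fin n) (Fin n) ℂ) (b : Fin n → ℝ) :
    Bq V x b = (NormedSpace.exp (x - xᴴ) * V) * dg b * (NormedSpace.exp (x - xᴴ) * V)ᴴ := by
  unfold Bq
  rw [Matrix.conjTranspose_mul, exp_skew (skew_sub x)]
  simp only [Matrix.mul_assoc]

/-- Derivative of power traces along a curve. -/
lemma hasDerivAt_pow_trace {f : ℝ → Matrix (Fin n) (Fin n) ℂ} {f' : Matrix (Fin n) (Fin n) ℂ}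
    {t : ℝ} (hf : HasDerivAt f f' t) (k : ℕ) :
    ∃ D : Matrix (Fin n) (Fin n) ℂ, HasDerivAt (fun s => (f s) ^ (k + 1)) D t ∧
      ∀ X, X * f t = f t * X → Matrix.trace (D * X) = ((k + 1 : ℕ) : ℂ) * Matrix.trace ((f t) ^ k * f' * X) := by
  induction k with
  | zero =>
    refine ⟨f', by simpa using hf, ?_⟩
    intro X _
    simp
  | succ k ih =>
    obtain ⟨D, hD, hX⟩ := ih
    refine ⟨D * f t + (f t) ^ (k + 1) * f', ?_, ?_⟩
    · have := hD.mul hf
      refine this.congr_of_eventuallyEq ?_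
      filter_upwards with s
      simp [pow_succ]
    · intro X hXc
      rw [Matrix.add_mul, Matrix.trace_add, Matrix.mul_assoc D, hX (f t * X) (by rw [Matrix.mul_assoc, hXc])]
      have h1 : Matrix.trace ((f t) ^ k * f' * (f t * X)) = Matrix.trace ((f t) ^ (k + 1) * f' * X) := by
        rw [← hXc, ← Matrix.mul_assoc, Matrix.trace_mul_comm, pow_succ']
        simp only [Matrix.mul_assoc]
      rw [h1]
      push_cast
      ring

lemma hasDerivAt_pow_trL {f : ℝ → Matrix (Fin n) (Fin n) ℂ} {f' : Matrix (Fin n) (Fin n) ℂ}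
    {t : ℝ} (hf : HasDerivAt f f' t) (k : ℕ) :
    HasDerivAt (fun s => trL ((f s) ^ (k + 1))) ((k + 1 : ℕ) * trL ((f t) ^ k * f')) t := by
  obtain ⟨D, hD, hX⟩ := hasDerivAt_pow_trace hf k
  have h1 := hX 1 (by simp)
  rw [Matrix.mul_one, Matrix.mul_one] at h1
  have h2 : HasDerivAt (fun s => trL ((f s) ^ (k + 1))) (trL D) t :=
    trL.hasFDerivAt.comp_hasDerivAt t hD
  have h3 : trL D = (k + 1 : ℕ) * trL ((f t) ^ k * f') := by
    rw [trL_apply, trL_apply, h1, ← Complex.ofReal_natCast, Complex.re_ofReal_mul]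
  rw [← h3]
  exact h2

/-- The derivative of `Fq` in the direction `x`. -/
noncomputable def dFq (κ : ℝ) (A B K : Matrix (Fin n) (Fin n) ℂ) : Matrix (Fin n) (Fin n) ℂ :=
  ((1 - κ : ℝ) : ℂ) • (K * B - B * K) + (κ : ℂ) • ((K * B - B * K) * B + B * (K * B - B * K)
    + I • (A * (K * B - B * K) - (K * B - B * K) * A))

lemma hasDerivAt_Fq (V x : Matrix (Fin n) (Fin n) ℂ) (p : Par n) :
    HasDerivAt (fun t : ℝ => Fq V (t • x, p))
      (dFq p.1 (dg p.2.1) (V * dg p.2.2 * Vᴴ) (x - xᴴ)) 0 := by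
  set K := x - xᴴ with hK
  set B := V * dg p.2.2 * Vᴴ with hB
  set A := dg p.2.1 with hA
  have hsm : ∀ t : ℝ, (t • x) - (t • x)ᴴ = t • K := by
    intro t
    rw [hK, Matrix.conjTranspose_smul, smul_sub]
    simp
  have he1 : HasDerivAt (fun t : ℝ => NormedSpace.exp (t • K)) K 0 := by
    have := hasDerivAt_exp_smul_const (𝕂 := ℝ) K (0 : ℝ)
    simp only [zero_smul, NormedSpace.exp_zero, one_mul] at this
    exact this
  have he2 : HasDerivAt (fun t : ℝ => NormedSpace.exp (-(t • K))) (-K) 0 := by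
    have := hasDerivAt_exp_smul_const (𝕂 := ℝ) (-K) (0 : ℝ)
    simp only [smul_neg, zero_smul, neg_zero, NormedSpace.exp_zero, one_mul] at this
    exact this
  have hBd : HasDerivAt (fun t : ℝ => NormedSpace.exp (t • K) * B * NormedSpace.exp (-(t • K)))
      (K * B - B * K) 0 := by
    have := (he1.mul_const B).mul he2
    simp only [zero_smul, neg_zero, NormedSpace.exp_zero, one_mul, mul_one, mul_neg] at this
    rw [sub_eq_add_neg]
    exact this
  have hB0 : NormedSpace.exp ((0:ℝ) • K) * B * NormedSpace.exp (-((0:ℝ) • K)) = B := by simp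
  have hF : HasDerivAt (fun t : ℝ => ((1 - p.1 : ℝ) : ℂ) • (A + (NormedSpace.exp (t • K) * B * NormedSpace.exp (-(t • K))))
      + (p.1 : ℂ) • (A * A + (NormedSpace.exp (t • K) * B * NormedSpace.exp (-(t • K))) * (NormedSpace.exp (t • K) * B * NormedSpace.exp (-(t • K)))
        + I • (A * (NormedSpace.exp (t • K) * B * NormedSpace.exp (-(t • K))) - (NormedSpace.exp (t • K) * B * NormedSpace.exp (-(t • K))) * A)))
      (dFq p.1 A B K) 0 := by
    have h1 := (hBd.const_add A).const_smul ((1 - p.1 : ℝ) : ℂ)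
    have h2 := (((hBd.mul hBd).const_add (A * A)).add (((hBd.const_mul A).sub (hBd.mul_const A)).const_smul I)).const_smul (p.1 : ℂ)
    have h3 := h1.add h2
    rw [hB0] at h3
    exact h3
  refine hF.congr_of_eventuallyEq ?_
  filter_upwards with t
  unfold Fq Fk Bq
  simp only [hsm]
  rfl

lemma trL_mul_comm (A B : Matrix (Fin n) (Fin n) ℂ) : trL (A * B) = trL (B * A) := by
  rw [trL_apply, trL_apply, Matrix.trace_mul_comm]

lemma trace_moment (κ : ℝ) (A B K M : Matrix (Fin n) (Fin n) ℂ) :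
    Matrix.trace (M * dFq κ A B K) = Matrix.trace (K * (B * (((1 - κ : ℝ) : ℂ) • M + (κ : ℂ) • (B * M + M * B + I • (M * A - A * M)))
      - (((1 - κ : ℝ) : ℂ) • M + (κ : ℂ) • (B * M + M * B + I • (M * A - A * M))) * B)) := by
  set N := ((1 - κ : ℝ) : ℂ) • M + (κ : ℂ) • (B * M + M * B + I • (M * A - A * M)) with hN
  set B' := K * B - B * K with hB'
  have h1 : Matrix.trace (M * dFq κ A B K) = Matrix.trace (N * B') := by
    unfold dFq
    rw [← hB', hN]
    simp only [Matrix.mul_add, Matrix.add_mul, Matrix.mul_smul, Matrix.smul_mul, Matrix.trace_add,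
      Matrix.trace_smul, Matrix.mul_sub, Matrix.sub_mul, Matrix.trace_sub]
    have e1 : Matrix.trace (M * (B' * B)) = Matrix.trace (B * M * B') := by
      rw [← Matrix.mul_assoc, Matrix.trace_mul_comm, ← Matrix.mul_assoc]
    have e2 : Matrix.trace (M * (B * B')) = Matrix.trace (M * B * B') := by
      rw [Matrix.mul_assoc]
    have e3 : Matrix.trace (M * (A * B')) = Matrix.trace (M * A * B') := by
      rw [Matrix.mul_assoc]
    have e4 : Matrix.trace (M * (B' * A)) = Matrix.trace (A * M * B') := by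
      rw [← Matrix.mul_assoc, Matrix.trace_mul_comm, ← Matrix.mul_assoc]
    rw [e1, e2, e3, e4]
  have h2 : Matrix.trace (N * B') = Matrix.trace (K * (B * N - N * B)) := by
    rw [hB', Matrix.mul_sub, Matrix.mul_sub, Matrix.trace_sub, Matrix.trace_sub]
    have e1 : Matrix.trace (N * (K * B)) = Matrix.trace (K * (B * N)) := by
      rw [Matrix.trace_mul_comm, Matrix.mul_assoc]
    have e2 : Matrix.trace (N * (B * K)) = Matrix.trace (K * (N * B)) := by
      rw [← Matrix.mul_assoc, Matrix.trace_mul_comm]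
    rw [e1, e2]
  rw [h1, h2]

lemma eq_zero_of_skew_trace {K : Matrix (Fin n) (Fin n) ℂ} (hK : Kᴴ = -K)
    (h : trL (K * K) = 0) : K = 0 := by
  have h1 : Matrix.trace (K * Kᴴ) = ((∑ i, ∑ j, ‖K i j‖ ^ 2 : ℝ) : ℂ) := by
    rw [Matrix.trace]
    push_cast
    apply Finset.sum_congr rfl
    intro i _
    rw [Matrix.diag_apply, Matrix.mul_apply]
    apply Finset.sum_congr rfl
    intro j _
    rw [Matrix.conjTranspose_apply]
    simpa using Complex.mul_conj' (K i j)
  have h2 : (∑ i, ∑ j, ‖K i j‖ ^ 2 : ℝ) = 0 := by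
    rw [hK, Matrix.mul_neg, Matrix.trace_neg] at h1
    have h3 := congrArg Complex.re h1
    rw [Complex.neg_re, Complex.ofReal_re] at h3
    rw [trL_apply] at h
    rw [← h3, h, neg_zero]
  ext i j
  have h3 := (Finset.sum_eq_zero_iff_of_nonneg (fun i _ => Finset.sum_nonneg (fun j _ => by positivity))).1 h2 i (Finset.mem_univ i)
  have h4 := (Finset.sum_eq_zero_iff_of_nonneg (fun j _ => by positivity)).1 h3 j (Finset.mem_univ j)
  simpa using h4

/-- Irreducibility of the pair `(dg a, B)` -/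
def Irr (B : Matrix (Fin n) (Fin n) ℂ) : Prop :=
  ∀ S : Finset (Fin n), (∀ j ∈ S, ∀ k, k ∉ S → B j k = 0) → S = ∅ ∨ S = Finset.univ


lemma dFq_add (κ : ℝ) (A B K L : Matrix (Fin n) (Fin n) ℂ) :
    dFq κ A B (K + L) = dFq κ A B K + dFq κ A B L := by
  unfold dFq
  simp only [mul_add, add_mul, mul_sub, sub_mul]
  module

lemma dFq_smul (κ r : ℝ) (A B K : Matrix (Fin n) (Fin n) ℂ) :
    dFq κ A B (r • K) = r • dFq κ A B K := by
  have e : ∀ (X : Matrix (Fin n) (Fin n) ℂ), r • X = (r : ℂ) • X := by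
    intro X
    ext i j
    simp
  rw [e, e]
  unfold dFq
  simp only [mul_sub, sub_mul, smul_mul_assoc, mul_smul_comm]
  module

/-- Surjectivity of the differential. -/
theorem surj_dir {κ : ℝ} (hκ0 : 0 ≤ κ) (hκ1 : κ ≤ 1) {a b γ : Fin n → ℝ} (ha : ∀ i, 0 < a i)
    (hainj : Function.Injective a) (hb : ∀ i, 0 < b i) (hbinj : Function.Injective b)
    (hγinj : Function.Injective γ)
    {V W : Matrix (Fin n) (Fin n) ℂ} (hV : IsU V) (hW : IsU W)
    (hF : Fk κ (dg a) (V * dg b * Vᴴ) = W * dg γ * Wᴴ) (hirr : Irr (V * dg b * Vᴴ))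
    (y : Fin (n - 1) → ℝ) :
    ∃ x : Matrix (Fin n) (Fin n) ℂ, ∀ k : Fin (n - 1),
      (((k : ℕ) + 1 + 1 : ℕ) : ℝ) * trL ((Fk κ (dg a) (V * dg b * Vᴴ)) ^ ((k : ℕ) + 1)
        * dFq κ (dg a) (V * dg b * Vᴴ) (x - xᴴ)) = y k := by
  classical
  rcases Nat.eq_zero_or_pos n with hn | hn
  · subst hn
    exact ⟨0, fun k => absurd k.2 (by simp)⟩
  set A : Matrix (Fin n) (Fin n) ℂ := dg a with hA
  set B := V * dg b * Vᴴ with hB
  set F := Fk κ A B with hFdef
  have hBh : B.IsHermitian := Matrix.isHermitian_mul_mul_conjTranspose V (dg_isHermitian b)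
  have hAh : A.IsHermitian := dg_isHermitian a
  have hFh : F.IsHermitian := Fk_isHermitian hAh hBh
  let L : Matrix (Fin n) (Fin n) ℂ →ₗ[ℝ] (Fin (n - 1) → ℝ) :=
    { toFun := fun x k => (((k : ℕ) + 1 + 1 : ℕ) : ℝ) *
        trL (F ^ ((k : ℕ) + 1) * dFq κ A B (x - xᴴ))
      map_add' := by
        intro x x'
        ext k
        have h1 : (x + x') - (x + x')ᴴ = (x - xᴴ) + (x' - x'ᴴ) := by
          rw [Matrix.conjTranspose_add]; abel
        simp only [Pi.add_apply]
        rw [h1, dFq_add, mul_add, map_add, mul_add]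
      map_smul' := by
        intro r x
        ext k
        have h1 : (r • x) - (r • x)ᴴ = r • (x - xᴴ) := by
          rw [Matrix.conjTranspose_smul, smul_sub]; simp
        simp only [Pi.smul_apply, smul_eq_mul, RingHom.id_apply]
        rw [h1, dFq_smul, mul_smul_comm, map_smul, smul_eq_mul]
        ring }
  suffices hL : LinearMap.range L = ⊤ by
    obtain ⟨x, hx⟩ := LinearMap.range_eq_top.1 hL y
    exact ⟨x, fun k => congrFun hx k⟩
  by_contra hne
  obtain ⟨φ, hφ, hker⟩ :=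
    Submodule.exists_le_ker_of_lt_top (LinearMap.range L) (lt_top_iff_ne_top.2 hne)
  set z : Fin (n - 1) → ℝ := fun k => φ (Pi.single k 1) with hz
  have hφz : ∀ w : Fin (n - 1) → ℝ, φ w = ∑ k, w k * z k := by
    intro w
    rw [LinearMap.pi_apply_eq_sum_univ φ w]
    apply Finset.sum_congr rfl
    intro k _
    rw [hz, smul_eq_mul]
    congr 2
    ext j
    rw [Pi.single_apply]
    simp only [eq_comm]
  set c : Fin (n - 1) → ℝ := fun k => z k * (((k : ℕ) + 1 + 1 : ℕ) : ℝ) with hc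
  set M : Matrix (Fin n) (Fin n) ℂ := ∑ k : Fin (n - 1), c k • F ^ ((k : ℕ) + 1) with hM
  have h0 : ∀ x : Matrix (Fin n) (Fin n) ℂ, trL (M * dFq κ A B (x - xᴴ)) = 0 := by
    intro x
    have h1 : φ (L x) = 0 := hker (LinearMap.mem_range_self L x)
    rw [hφz] at h1
    rw [hM, Finset.sum_mul, map_sum, ← h1]
    apply Finset.sum_congr rfl
    intro k _
    rw [smul_mul_assoc, map_smul, smul_eq_mul, hc]
    show _ = ((((k : ℕ) + 1 + 1 : ℕ) : ℝ) * trL (F ^ ((k : ℕ) + 1) * dFq κ A B (x - xᴴ))) * z k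
    ring
  have hMh : M.IsHermitian := by
    rw [Matrix.IsHermitian, hM, Matrix.conjTranspose_sum]
    apply Finset.sum_congr rfl
    intro k _
    rw [Matrix.conjTranspose_smul, Matrix.conjTranspose_pow, hFh.eq]
    simp
  have hFM : F * M = M * F := by
    rw [hM, Finset.mul_sum, Finset.sum_mul]
    apply Finset.sum_congr rfl
    intro k _
    rw [mul_smul_comm, smul_mul_assoc, ← pow_succ', ← pow_succ]
  set N := ((1 - κ : ℝ) : ℂ) • M + (κ : ℂ) • (B * M + M * B + I • (M * A - A * M)) with hN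
  have hNh : N.IsHermitian := by
    rw [Matrix.IsHermitian, hN]
    simp only [Matrix.conjTranspose_add, Matrix.conjTranspose_mul, Matrix.conjTranspose_smul,
      Matrix.conjTranspose_sub, hAh.eq, hBh.eq, hMh.eq]
    have h1 : star I = -I := by simp
    have h2 : ∀ r : ℝ, star (r : ℂ) = r := fun r => by simp
    rw [h1, h2, h2]
    module
  have hK : (B * N - N * B)ᴴ = -(B * N - N * B) := by
    rw [Matrix.conjTranspose_sub, Matrix.conjTranspose_mul B N, Matrix.conjTranspose_mul N B,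
      hBh.eq, hNh.eq]
    abel
  have hBN : B * N = N * B := by
    have h1 : (((1 / 2 : ℝ) • (B * N - N * B)) - ((1 / 2 : ℝ) • (B * N - N * B))ᴴ) =
        B * N - N * B := by
      rw [Matrix.conjTranspose_smul, hK]
      have : star (1 / 2 : ℝ) = 1 / 2 := by simp
      rw [this]
      module
    have h2 := h0 ((1 / 2 : ℝ) • (B * N - N * B))
    rw [h1, trL_apply, trace_moment, ← hN, ← trL_apply] at h2
    exact sub_eq_zero.1 (eq_zero_of_skew_trace hK h2)
  have hscal : ∃ μ : ℝ, M = (μ : ℂ) • (1 : Matrix (Fin n) (Fin n) ℂ) := by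
    rcases keyK hκ0 hκ1 ha hainj hb hbinj hV.1 hV.2 hMh hA hB hFM hBN with h | ⟨S, h1, h2, h3⟩
    · exact h
    · exfalso
      rcases hirr S h3 with h4 | h4
      · exact h1.ne_empty h4
      · exact h2 h4
  obtain ⟨μ, hμ⟩ := hscal
  have hMW : M = W * dg (fun i => ∑ k, c k * γ i ^ ((k : ℕ) + 1)) * Wᴴ := by
    have h1 : dg (fun i => ∑ k, c k * γ i ^ ((k : ℕ) + 1))
        = ∑ k, c k • dg (fun i => γ i ^ ((k : ℕ) + 1)) := by
      have h2 : (fun i => ∑ k, c k * γ i ^ ((k : ℕ) + 1))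
        = ∑ k, c k • (fun i => γ i ^ ((k : ℕ) + 1)) := by
        ext i
        simp [Finset.sum_apply]
      rw [h2, ← dgL_apply, map_sum]
      apply Finset.sum_congr rfl
      intro k _
      rw [map_smul, dgL_apply]
    rw [h1, Finset.mul_sum, Finset.sum_mul, hM]
    apply Finset.sum_congr rfl
    intro k _
    rw [hF, conj_pow hW, mul_smul_comm, smul_mul_assoc]
  have hγμ : ∀ i, ∑ k, c k * γ i ^ ((k : ℕ) + 1) = μ := by
    intro i
    have h1 : dg (fun i => ∑ k, c k * γ i ^ ((k : ℕ) + 1)) = (μ : ℂ) • (1 : Matrix (Fin n) (Fin n) ℂ) := by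
      have h2 : Wᴴ * M * W = dg (fun i => ∑ k, c k * γ i ^ ((k : ℕ) + 1)) := by
        rw [hMW]
        have : Wᴴ * (W * dg (fun i => ∑ k, c k * γ i ^ ((k : ℕ) + 1)) * Wᴴ) * W
          = (Wᴴ * W) * dg (fun i => ∑ k, c k * γ i ^ ((k : ℕ) + 1)) * (Wᴴ * W) := by
          simp only [Matrix.mul_assoc]
        rw [this, hW.1, Matrix.one_mul, Matrix.mul_one]
      rw [← h2, hμ, Matrix.mul_smul, Matrix.mul_one, Matrix.smul_mul, hW.1]
    have h3 := congrFun (congrFun h1 i) i
    rw [dg, Matrix.diagonal_apply_eq, Matrix.smul_apply, Matrix.one_apply_eq, smul_eq_mul,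
      mul_one] at h3
    exact_mod_cast h3
  set P : Polynomial ℝ := (∑ k : Fin (n - 1), Polynomial.C (c k) * Polynomial.X ^ ((k : ℕ) + 1))
    - Polynomial.C μ with hP
  have hPdeg : P.natDegree < Fintype.card (Fin n) := by
    rw [Fintype.card_fin]
    have h1 : P.natDegree ≤ n - 1 := by
      rw [hP]
      apply (Polynomial.natDegree_sub_le _ _).trans
      apply max_le
      · apply Polynomial.natDegree_sum_le_of_forall_le
        intro k _
        exact (Polynomial.natDegree_C_mul_X_pow_le _ _).trans (by omega)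
      · rw [Polynomial.natDegree_C]; exact Nat.zero_le _
    omega
  have hP0 : P = 0 := by
    apply Polynomial.eq_zero_of_natDegree_lt_card_of_eval_eq_zero P hγinj _ hPdeg
    intro i
    rw [hP, Polynomial.eval_sub, Polynomial.eval_finsetSum, Polynomial.eval_C]
    simp only [Polynomial.eval_mul, Polynomial.eval_C, Polynomial.eval_pow, Polynomial.eval_X]
    rw [hγμ i, sub_self]
  apply hφ
  ext k
  simp only [LinearMap.coe_comp, Function.comp_apply, LinearMap.coe_single, LinearMap.zero_comp,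
    LinearMap.zero_apply]
  have hck : c k = 0 := by
    have h1 : P.coeff ((k : ℕ) + 1) = 0 := by rw [hP0, Polynomial.coeff_zero]
    rw [hP, Polynomial.coeff_sub, Polynomial.finsetSum_coeff, Polynomial.coeff_C,
      if_neg (Nat.succ_ne_zero _), sub_zero, Finset.sum_eq_single k] at h1
    · rw [Polynomial.coeff_C_mul, Polynomial.coeff_X_pow, if_pos rfl, mul_one] at h1
      exact h1
    · intro j _ hj
      rw [Polynomial.coeff_C_mul, Polynomial.coeff_X_pow, if_neg, mul_zero]
      intro h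
      apply hj
      apply Fin.ext
      omega
    · intro h; exact absurd (Finset.mem_univ _) h
  rw [hc] at hck
  rcases mul_eq_zero.1 hck with h | h
  · exact h
  · exfalso
    have : (((k : ℕ) + 1 + 1 : ℕ) : ℝ) ≠ 0 := by positivity
    exact this h

end Pool.Agent.Helper44.Cart
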