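import Pool.Agent.Helper44.Cart.KeyK

set_option autoImplicit false

open Matrix Complex

namespace Pool.Agent.Helper44.Cart

variable {n : ℕ}

/-- Regular spectral data. -/
def Regular (α β γ : Fin n → ℝ) : Prop :=
  Function.Injective α ∧ Function.Injective β ∧ Function.Injective γ ∧
    ∀ I J K : Finset (Fin n), ∑ k ∈ K, γ k = ∑ i ∈ I, α i + ∑ j ∈ J, β j →
      K = ∅ ∨ K = Finset.univ

lemma trace_conj {V X : Matrix (Fin n) (Fin n) ℂ} (hV : Vᴴ * V = 1) :
    Matrix.trace (V * X * Vᴴ) = Matrix.trace X := by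
  rw [Matrix.trace_mul_comm, ← Matrix.mul_assoc, hV, Matrix.one_mul]

lemma trace_dg (a : Fin n → ℝ) : Matrix.trace (dg a) = ((∑ i, a i : ℝ) : ℂ) := by
  unfold dg
  rw [Matrix.trace_diagonal]
  push_cast; rfl

/-- A projection commuting with a Hermitian matrix with simple spectrum selects eigenvalues. -/
lemma subset_sum {V Q E : Matrix (Fin n) (Fin n) ℂ} {β : Fin n → ℝ} (hV : Vᴴ * V = 1)
    (hV' : V * Vᴴ = 1) (hβ : Function.Injective β) (hQ : Q = V * dg β * Vᴴ) (hE : E * E = E)
    (hEQ : E * Q = Q * E) :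
    ∃ J : Finset (Fin n), Matrix.trace (E * Q) = ((∑ j ∈ J, β j : ℝ) : ℂ) ∧
      Matrix.trace E = (J.card : ℂ) := by
  classical
  set E' := Vᴴ * E * V with hE'
  have hcomm : dg β * E' = E' * dg β := unitary_conj_commute hV hQ hEQ.symm
  have hoff : ∀ j k, j ≠ k → E' j k = 0 := fun j k hjk => offdiag_zero_of_commute hβ hcomm hjk
  have hE'E' : E' * E' = E' := by
    have : E' * E' = Vᴴ * E * (V * Vᴴ) * E * V := by
      rw [hE']; simp only [Matrix.mul_assoc]
    rw [this, hV', Matrix.mul_one, Matrix.mul_assoc Vᴴ, hE]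
  have h01 : ∀ j, E' j j = 0 ∨ E' j j = 1 := by
    intro j
    have h1 := congrFun (congrFun hE'E' j) j
    rw [Matrix.mul_apply, Finset.sum_eq_single j] at h1
    · have h2 : E' j j * (E' j j - 1) = 0 := by rw [mul_sub, h1]; ring
      rcases mul_eq_zero.1 h2 with h3 | h3
      · left; exact h3
      · right; exact sub_eq_zero.1 h3
    · intro b _ hb
      rw [hoff j b (Ne.symm hb), zero_mul]
    · intro h; exact absurd (Finset.mem_univ _) h
  have hEeq : E = V * E' * Vᴴ := by
    have : V * E' * Vᴴ = (V * Vᴴ) * E * (V * Vᴴ) := by rw [hE']; simp only [Matrix.mul_assoc]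
    rw [this, hV', Matrix.one_mul, Matrix.mul_one]
  refine ⟨Finset.univ.filter (fun j => E' j j = 1), ?_, ?_⟩
  · have h1 : E * Q = V * (E' * dg β) * Vᴴ := by
      rw [hEeq, hQ]; exact conj_mul_conj hV
    rw [h1, trace_conj hV, Matrix.trace]
    rw [Finset.sum_filter]
    push_cast
    apply Finset.sum_congr rfl
    intro j _
    rw [Matrix.diag_apply, dg, Matrix.mul_diagonal]
    rcases h01 j with h2 | h2
    · rw [h2]; simp
    · rw [h2]; simp
  · rw [hEeq, trace_conj hV, Matrix.trace, Finset.card_filter]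
    push_cast
    apply Finset.sum_congr rfl
    intro j _
    rw [Matrix.diag_apply]
    rcases h01 j with h2 | h2
    · rw [h2]; simp
    · rw [h2]; simp

/-- Regular spectral data exclude reducible pairs. -/
lemma irreducible_of_regular {κ : ℝ} {a b γ : Fin n → ℝ} {V W B : Matrix (Fin n) (Fin n) ℂ}
    (hreg : Regular (fun i => tk κ (a i)) (fun i => tk κ (b i)) γ)
    (hV : Vᴴ * V = 1) (hV' : V * Vᴴ = 1) (hW : Wᴴ * W = 1) (hW' : W * Wᴴ = 1)
    (hB : B = V * dg b * Vᴴ) (hF : Fk κ (dg a) B = W * dg γ * Wᴴ) (S : Finset (Fin n))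
    (hS : ∀ j ∈ S, ∀ k, k ∉ S → B j k = 0) : S = ∅ ∨ S = Finset.univ := by
  classical
  obtain ⟨hα, hβ, hγ, hsum⟩ := hreg
  set E : Matrix (Fin n) (Fin n) ℂ := dg (fun i => if i ∈ S then 1 else 0) with hEdef
  have hBh : B.IsHermitian := by
    rw [hB]; exact Matrix.isHermitian_mul_mul_conjTranspose V (dg_isHermitian b)
  have hS' : ∀ j, j ∉ S → ∀ k ∈ S, B j k = 0 := by
    intro j hj k hk
    rw [← hBh.apply, hS k hk j hj, star_zero]
  have hE : E * E = E := by
    rw [hEdef, dg_mul_dg]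
    congr 1
    ext i
    by_cases h : i ∈ S <;> simp [h]
  have hEA : E * dg a = dg a * E := by
    rw [hEdef, dg_mul_dg, dg_mul_dg]
    congr 1
    ext i
    ring
  have hEB : E * B = B * E := by
    ext j k
    rw [hEdef, dg, Matrix.diagonal_mul, Matrix.mul_diagonal]
    by_cases hj : j ∈ S
    · by_cases hk : k ∈ S
      · simp [hj, hk]
      · simp [hS j hj k hk]
    · by_cases hk : k ∈ S
      · simp [hS' j hj k hk]
      · simp [hj, hk]
  have hTB : Tk κ B = V * dg (fun i => tk κ (b i)) * Vᴴ := by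
    rw [hB, Tk_conj hV, Tk_dg]
  have hETB : E * Tk κ B = Tk κ B * E := by
    unfold Tk
    rw [mul_add, add_mul, mul_smul_comm, mul_smul_comm, smul_mul_assoc, smul_mul_assoc, hEB,
      ← mul_assoc, hEB, mul_assoc, hEB, ← mul_assoc]
  have hEF : E * Fk κ (dg a) B = Fk κ (dg a) B * E := by
    have h1 : E * (dg a * B) = (dg a * B) * E := by
      rw [← mul_assoc, hEA, mul_assoc, hEB, ← mul_assoc]
    have h2 : E * (B * dg a) = (B * dg a) * E := by
      rw [← mul_assoc, hEB, mul_assoc, hEA, ← mul_assoc]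
    have h3 : E * (dg a * dg a) = (dg a * dg a) * E := by
      rw [← mul_assoc, hEA, mul_assoc, hEA, ← mul_assoc]
    have h4 : E * (B * B) = (B * B) * E := by
      rw [← mul_assoc, hEB, mul_assoc, hEB, ← mul_assoc]
    unfold Fk
    simp only [mul_add, add_mul, mul_smul_comm, smul_mul_assoc, mul_sub, sub_mul, hEA, hEB, h1, h2,
      h3, h4]
  obtain ⟨J, hJ1, hJ2⟩ := subset_sum hV hV' hβ hTB hE hETB
  obtain ⟨K, hK1, hK2⟩ := subset_sum hW hW' hγ hF hE hEF
  have htrE : Matrix.trace E = (S.card : ℂ) := by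
    rw [hEdef, trace_dg]
    have : (∑ i, (if i ∈ S then (1 : ℝ) else 0)) = (S.card : ℝ) := by simp
    rw [this, Complex.ofReal_natCast]
  have hEA1 : Matrix.trace (E * Tk κ (dg a)) = ((∑ i ∈ S, tk κ (a i) : ℝ) : ℂ) := by
    rw [Tk_dg, hEdef, dg_mul_dg, trace_dg]
    have : (∑ i, (if i ∈ S then (1 : ℝ) else 0) * tk κ (a i)) = ∑ i ∈ S, tk κ (a i) := by
      simp [ite_mul]
    rw [this]
  have hcomm : Matrix.trace (E * (dg a * B - B * dg a)) = 0 := by
    rw [mul_sub, Matrix.trace_sub, ← mul_assoc, hEA, mul_assoc, Matrix.trace_mul_comm (dg a),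
      mul_assoc, sub_self]
  have hfin : (∑ k ∈ K, γ k : ℝ) = ∑ i ∈ S, tk κ (a i) + ∑ j ∈ J, tk κ (b j) := by
    have h1 : Matrix.trace (E * Fk κ (dg a) B)
        = Matrix.trace (E * Tk κ (dg a)) + Matrix.trace (E * Tk κ B) := by
      rw [Fk_eq, mul_add, mul_add, mul_smul_comm, Matrix.trace_add, Matrix.trace_add,
        Matrix.trace_smul, hcomm, smul_zero, add_zero]
    rw [hK1, hEA1, hJ1] at h1
    exact_mod_cast h1
  have hcard : (K.card : ℂ) = S.card := by rw [← hK2, htrE]
  have hcard' : K.card = S.card := by exact_mod_cast hcard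
  rcases hsum S J K hfin with h | h
  · left
    rw [h, Finset.card_empty] at hcard'
    exact Finset.card_eq_zero.1 hcard'.symm
  · right
    rw [h] at hcard'
    exact Finset.eq_univ_of_card S (by rw [← hcard', Finset.card_univ])

end Pool.Agent.Helper44.Cart
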