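import Pool.Agent.Helper44.Cart.Local2

set_option autoImplicit false

open Matrix Complex Topology
open scoped Matrix.Norms.Operator

namespace Pool.Agent.Helper44.Cart

variable {n : ℕ}

lemma trace_eq_trL {H : Matrix (Fin n) (Fin n) ℂ} (hH : H.IsHermitian) (k : ℕ) :
    Matrix.trace (H ^ k) = ((trL (H ^ k) : ℝ) : ℂ) := by
  obtain ⟨V, hV, h⟩ := exists_diag hH
  have h2 := trace_conj_pow hV hH.eigenvalues k
  rw [← h] at h2
  rw [trL_apply, h2, Complex.ofReal_re]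

lemma trace_Fk (κ : ℝ) (a b : Fin n → ℝ) {V : Matrix (Fin n) (Fin n) ℂ} (hV : IsU V) :
    Matrix.trace (Fk κ (dg a) (V * dg b * Vᴴ))
      = ((∑ i, tk κ (a i) + ∑ i, tk κ (b i) : ℝ) : ℂ) := by
  rw [Fk_eq, Matrix.trace_add, Matrix.trace_add, Tk_dg, Tk_conj hV.1, Tk_dg, trace_conj hV.1,
    trace_dg, trace_dg, Matrix.trace_smul, Matrix.trace_sub, Matrix.trace_mul_comm, sub_self,
    smul_zero, add_zero]
  push_cast
  rfl

lemma Bq_zero (V : Matrix (Fin n) (Fin n) ℂ) (b : Fin n → ℝ) : Bq V 0 b = V * dg b * Vᴴ := by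
  unfold Bq
  simp

/-- Local solvability near an irreducible simple pair. -/
theorem local_solv {κ : ℝ} (hκ0 : 0 ≤ κ) (hκ1 : κ ≤ 1) {a b γ : Fin n → ℝ} (ha : ∀ i, 0 < a i)
    (hainj : Function.Injective a) (hb : ∀ i, 0 < b i) (hbinj : Function.Injective b)
    (hγinj : Function.Injective γ)
    {V W : Matrix (Fin n) (Fin n) ℂ} (hV : IsU V) (hW : IsU W)
    (hF : Fk κ (dg a) (V * dg b * Vᴴ) = W * dg γ * Wᴴ) (hirr : Irr (V * dg b * Vᴴ)) :
    ∀ᶠ q : Par n × (Fin n → ℝ) in 𝓝 ((κ, a, b), γ),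
      (∑ i, q.2 i = ∑ i, tk q.1.1 (q.1.2.1 i) + ∑ i, tk q.1.1 (q.1.2.2 i)) →
      ∃ V' W' : Matrix (Fin n) (Fin n) ℂ, IsU V' ∧ IsU W' ∧
        Fk q.1.1 (dg q.1.2.1) (V' * dg q.1.2.2 * V'ᴴ) = W' * dg q.2 * W'ᴴ := by
  classical
  have : CompleteSpace (Matrix (Fin n) (Fin n) ℂ) := FiniteDimensional.complete ℝ _
  set Φ : Matrix (Fin n) (Fin n) ℂ × Par n → (Fin (n - 1) → ℝ) × Par n :=
    fun q => (fun k => trL ((Fq V q) ^ ((k : ℕ) + 1 + 1)), q.2) with hΦdef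
  have hΦ : ContDiff ℝ 1 Φ := by
    apply ContDiff.prodMk
    · rw [contDiff_pi]
      intro k
      exact trL.contDiff.comp ((contDiff_Fq V).pow _)
    · exact contDiff_snd
  set p0 : Par n := (κ, a, b) with hp0
  have hstrict := (hΦ.contDiffAt (x := ((0 : Matrix (Fin n) (Fin n) ℂ), p0))).hasStrictFDerivAt
    (by norm_num)
  set D := fderiv ℝ Φ ((0 : Matrix (Fin n) (Fin n) ℂ), p0) with hD
  have hdir : ∀ x : Matrix (Fin n) (Fin n) ℂ, D (x, 0) =
      (fun k : Fin (n - 1) => (((k : ℕ) + 1 + 1 : ℕ) : ℝ) *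
        trL ((Fk κ (dg a) (V * dg b * Vᴴ)) ^ ((k : ℕ) + 1)
        * dFq κ (dg a) (V * dg b * Vᴴ) (x - xᴴ)), 0) := by
    intro x
    have hcurve : HasDerivAt (fun t : ℝ => (t • x, p0)) (x, (0 : Par n)) 0 := by
      have h1 : HasDerivAt (fun t : ℝ => t • x) ((1 : ℝ) • x) 0 := (hasDerivAt_id (0 : ℝ)).smul_const x
      rw [one_smul] at h1
      exact h1.prodMk (hasDerivAt_const _ _)
    have h0 : (fun t : ℝ => (t • x, p0)) 0 = ((0 : Matrix (Fin n) (Fin n) ℂ), p0) := by simp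
    have h1 : HasDerivAt (fun t : ℝ => Φ (t • x, p0)) (D (x, 0)) 0 := by
      have h2 : HasFDerivAt Φ D ((fun t : ℝ => (t • x, p0)) 0) := by
        rw [h0]; exact hstrict.hasFDerivAt
      exact h2.comp_hasDerivAt (0 : ℝ) hcurve
    have h3 : HasDerivAt (fun t : ℝ => Φ (t • x, p0))
        (fun k : Fin (n - 1) => (((k : ℕ) + 1 + 1 : ℕ) : ℝ) *
        trL ((Fk κ (dg a) (V * dg b * Vᴴ)) ^ ((k : ℕ) + 1)
        * dFq κ (dg a) (V * dg b * Vᴴ) (x - xᴴ)), 0) 0 := by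
      apply HasDerivAt.prodMk
      · rw [hasDerivAt_pi]
        intro k
        have h4 := hasDerivAt_pow_trL (hasDerivAt_Fq V x p0) ((k : ℕ) + 1)
        have h5 : Fq V ((0 : ℝ) • x, p0) = Fk κ (dg a) (V * dg b * Vᴴ) := by
          rw [zero_smul]
          unfold Fq
          rw [Bq_zero]
        rw [h5] at h4
        exact h4
      · exact hasDerivAt_const _ _
    exact h1.unique h3
  have hsnd : ∀ w, (D w).2 = w.2 := by
    intro w
    have h1 : HasFDerivAt (fun q => (Φ q).2) ((ContinuousLinearMap.snd ℝ _ _).comp D)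
        ((0 : Matrix (Fin n) (Fin n) ℂ), p0) := hstrict.hasFDerivAt.snd
    have h2 : HasFDerivAt (fun q : Matrix (Fin n) (Fin n) ℂ × Par n => (Φ q).2)
        (ContinuousLinearMap.snd ℝ (Matrix (Fin n) (Fin n) ℂ) (Par n))
        ((0 : Matrix (Fin n) (Fin n) ℂ), p0) := hasFDerivAt_snd
    have h3 := h1.unique h2
    have h4 := congrArg (fun L => L w) h3
    simpa using h4
  have hsurj : D.range = ⊤ := by
    rw [LinearMap.range_eq_top]
    rintro ⟨y, q⟩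
    obtain ⟨x, hx⟩ := surj_dir hκ0 hκ1 ha hainj hb hbinj hγinj hV hW hF hirr (y - (D (0, q)).1)
    refine ⟨(x, q), ?_⟩
    have h1 : ((x, q) : Matrix (Fin n) (Fin n) ℂ × Par n) = (x, 0) + (0, q) := by simp
    have h2 : D (x, q) = D (x, 0) + D (0, q) := by rw [h1, map_add]
    show D (x, q) = (y, q)
    rw [h2, hdir]
    ext1
    · ext k
      simp only [Prod.fst_add, Pi.add_apply]
      rw [hx k]
      simp
    · simp [hsnd]
  have hmap := hstrict.map_nhds_eq_of_surj hsurj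
  have hex : ∀ᶠ w in 𝓝 (Φ ((0 : Matrix (Fin n) (Fin n) ℂ), p0)), ∃ q, Φ q = w := by
    rw [← hmap]
    exact Filter.eventually_map.2 (Filter.Eventually.of_forall fun q => ⟨q, rfl⟩)
  set Ψ : Par n × (Fin n → ℝ) → (Fin (n - 1) → ℝ) × Par n :=
    fun q => (fun k => ∑ i, (q.2 i) ^ ((k : ℕ) + 1 + 1), q.1) with hΨ
  have hΨc : Continuous Ψ := by
    apply Continuous.prodMk
    · apply continuous_pi
      intro k
      fun_prop
    · exact continuous_fst
  have hΨ0 : Ψ (p0, γ) = Φ ((0 : Matrix (Fin n) (Fin n) ℂ), p0) := by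
    rw [hΨ, hΦdef]
    ext1
    · ext k
      show ∑ i, (γ i) ^ ((k : ℕ) + 1 + 1) = trL ((Fq V (0, p0)) ^ ((k : ℕ) + 1 + 1))
      have h5 : Fq V ((0 : Matrix (Fin n) (Fin n) ℂ), p0) = W * dg γ * Wᴴ := by
        unfold Fq
        rw [Bq_zero]
        exact hF
      rw [h5, trL_apply, trace_conj_pow hW, Complex.ofReal_re]
    · rfl
  have hev : ∀ᶠ q in 𝓝 (p0, γ), ∃ r, Φ r = Ψ q := by
    have := hΨc.tendsto (p0, γ)
    rw [hΨ0] at this
    exact this.eventually hex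
  filter_upwards [hev] with q hq htr
  obtain ⟨⟨x, p⟩, hr⟩ := hq
  have hp : p = q.1 := congrArg Prod.snd hr
  subst hp
  have hk : ∀ k : Fin (n - 1), trL ((Fq V (x, q.1)) ^ ((k : ℕ) + 1 + 1))
      = ∑ i, (q.2 i) ^ ((k : ℕ) + 1 + 1) := fun k => congrFun (congrArg Prod.fst hr) k
  set V' := NormedSpace.exp (x - xᴴ) * V with hV'
  have hV'U : IsU V' := (isU_exp (skew_sub x)).mul hV
  have hFq : Fq V (x, q.1) = Fk q.1.1 (dg q.1.2.1) (V' * dg q.1.2.2 * V'ᴴ) := by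
    unfold Fq
    rw [Bq_eq]
  have hBh : (V' * dg q.1.2.2 * V'ᴴ).IsHermitian :=
    Matrix.isHermitian_mul_mul_conjTranspose V' (dg_isHermitian q.1.2.2)
  have hFh : (Fk q.1.1 (dg q.1.2.1) (V' * dg q.1.2.2 * V'ᴴ)).IsHermitian :=
    Fk_isHermitian (dg_isHermitian _) hBh
  obtain ⟨W', hW', hW'2⟩ := exists_diag_of_traces hFh (γ := q.2) (by
    intro k h1 h2
    rcases Nat.lt_or_ge k 2 with h3 | h3
    · have : k = 1 := by omega
      subst this
      rw [pow_one, trace_Fk _ _ _ hV'U, ← htr]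
      simp
    · obtain ⟨m, rfl⟩ : ∃ m, k = m + 1 + 1 := ⟨k - 2, by omega⟩
      have h4 := hk ⟨m, by omega⟩
      rw [trace_eq_trL hFh, ← hFq, h4])
  exact ⟨V', W', hV'U, hW', hW'2⟩

end Pool.Agent.Helper44.Cart
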