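import Pool.Agent.Helper44.Cart.Dense

set_option autoImplicit false

open Matrix Complex Topology Filter
open scoped ComplexOrder

namespace Pool.Agent.Helper44.Cart

variable {n : ℕ}

/-- Limits of eigenvalues along a subsequence. -/
lemma eig_limit {H : ℕ → Matrix (Fin n) (Fin n) ℂ} {H0 : Matrix (Fin n) (Fin n) ℂ}
    (hH : Tendsto H atTop (𝓝 H0)) {b : ℕ → Fin n → ℝ} {V : ℕ → Matrix (Fin n) (Fin n) ℂ}
    (hV : ∀ m, IsU (V m)) (h : ∀ m, H m = V m * dg (b m) * (V m)ᴴ) {b0 : Fin n → ℝ}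
    {V0 : Matrix (Fin n) (Fin n) ℂ} (hV0 : IsU V0) (h0 : H0 = V0 * dg b0 * V0ᴴ) :
    ∃ (φ : ℕ → ℕ) (σ : Equiv.Perm (Fin n)), Tendsto φ atTop atTop ∧
      Tendsto (fun m => b (φ m)) atTop (𝓝 (b0 ∘ σ)) := by
  have h1 : Tendsto (fun m => trL (H m ^ 2)) atTop (𝓝 (trL (H0 ^ 2))) := by
    have hc : Continuous (fun X : Matrix (Fin n) (Fin n) ℂ => (Matrix.trace (X ^ 2)).re) := by
      fun_prop
    exact (hc.tendsto H0).comp hH
  obtain ⟨R, hR⟩ := h1.bddAbove_range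
  have h2 : ∀ m i, b m i ^ 2 ≤ R := by
    intro m i
    have h3 : trL (H m ^ 2) = ∑ i, b m i ^ 2 := by
      rw [h m, trL_apply, trace_conj_pow (hV m), Complex.ofReal_re]
    have h4 : b m i ^ 2 ≤ ∑ i, b m i ^ 2 :=
      Finset.single_le_sum (f := fun i => b m i ^ 2) (fun i _ => sq_nonneg _) (Finset.mem_univ i)
    exact h4.trans (h3 ▸ hR (Set.mem_range_self m))
  have h5 : ∀ m i, |b m i| ≤ 1 + R := by
    intro m i
    have h6 := h2 m i
    have h7 : |b m i| ^ 2 = b m i ^ 2 := sq_abs _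
    nlinarith [abs_nonneg (b m i), sq_nonneg (|b m i| - 1)]
  have hI : IsCompact (Set.Icc (fun _ : Fin n => -(1 + R)) (fun _ : Fin n => 1 + R)) :=
    isCompact_Icc
  obtain ⟨b1, hb1, φ1, hφ1, hl1⟩ := hI.tendsto_subseq (x := b)
    (fun m => ⟨fun i => (abs_le.1 (h5 m i)).1, fun i => (abs_le.1 (h5 m i)).2⟩)
  obtain ⟨V1, hV1, φ2, hφ2, hl2⟩ := isCompact_U.tendsto_subseq (x := V ∘ φ1) (fun m => hV _)
  have hl1' : Tendsto (fun m => b (φ1 (φ2 m))) atTop (𝓝 b1) := hl1.comp hφ2.tendsto_atTop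
  have hl2' : Tendsto (fun m => V (φ1 (φ2 m))) atTop (𝓝 V1) := hl2
  have h8 := tendsto_conj hl1' hl2'
  have h9 : Tendsto (fun m => H (φ1 (φ2 m))) atTop (𝓝 H0) :=
    hH.comp (hφ1.tendsto_atTop.comp hφ2.tendsto_atTop)
  have h10 : (fun m => H (φ1 (φ2 m))) =
      fun m => V (φ1 (φ2 m)) * dg (b (φ1 (φ2 m))) * (V (φ1 (φ2 m)))ᴴ := by
    ext1 m; exact h _
  rw [h10] at h9
  have h11 : H0 = V1 * dg b1 * V1ᴴ := tendsto_nhds_unique h9 h8
  obtain ⟨σ, hσ⟩ := perm_of_conj_eq hV0 hV1 (h0.symm.trans h11)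
  refine ⟨fun m => φ1 (φ2 m), σ, hφ1.tendsto_atTop.comp hφ2.tendsto_atTop, ?_⟩
  rw [hσ]
  exact hl1'

/-- Invariance under permutations. -/
lemma Sol.perm {κ : ℝ} {α β γ : Fin n → ℝ} (σ τ : Equiv.Perm (Fin n)) (h : Sol κ α β γ) :
    Sol κ α (β ∘ σ) (γ ∘ τ) := by
  obtain ⟨a, b, V, W, ha, hb, haα, hbβ, hV, hW, hF⟩ := h
  obtain ⟨V', hV', hV2⟩ := conj_perm hV b σ
  obtain ⟨W', hW', hW2⟩ := conj_perm hW γ τ
  refine ⟨a, b ∘ σ, V', W', ha, fun i => hb _, haα, fun i => hbβ _, hV', hW', ?_⟩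
  rw [← hV2, ← hW2]
  exact hF

lemma affine_ne {c d : ℝ} (hd : d ≠ 0) : ∀ᶠ t in 𝓝[≠] (0 : ℝ), c + t * d ≠ 0 := by
  have hfin : {t : ℝ | c + t * d = 0}.Finite := by
    refine (Set.finite_singleton (-c / d)).subset ?_
    intro t ht
    have h1 : c + t * d = 0 := ht
    rw [Set.mem_singleton_iff, eq_div_iff hd]
    linarith
  exact eventually_notMem_of_finite hfin 0

lemma regular_eventually {α β γ u v w : Fin n → ℝ} (h : Regular u v w) :
    ∀ᶠ t in 𝓝[≠] (0 : ℝ), Regular (fun i => α i + t * u i) (fun i => β i + t * v i)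
      (fun i => γ i + t * w i) := by
  obtain ⟨h1, h2, h3, h4⟩ := h
  have hinj : ∀ (c d : Fin n → ℝ), Function.Injective d →
      ∀ᶠ t in 𝓝[≠] (0 : ℝ), Function.Injective (fun i => c i + t * d i) := by
    intro c d hd
    have : ∀ᶠ t in 𝓝[≠] (0 : ℝ), ∀ i j : Fin n, i ≠ j → c i + t * d i ≠ c j + t * d j := by
      rw [eventually_all]
      intro i
      rw [eventually_all]
      intro j
      by_cases hij : i = j
      · exact Filter.Eventually.of_forall fun t h => absurd hij h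
      · have h5 : d i - d j ≠ 0 := sub_ne_zero.2 fun h => hij (hd h)
        filter_upwards [affine_ne (c := c i - c j) h5] with t ht _ heq
        apply ht
        linear_combination heq
    filter_upwards [this] with t ht i j hij
    by_contra hne
    exact ht i j hne hij
  have hsum : ∀ᶠ t in 𝓝[≠] (0 : ℝ), ∀ I J K : Finset (Fin n),
      ∑ k ∈ K, (γ k + t * w k) = ∑ i ∈ I, (α i + t * u i) + ∑ j ∈ J, (β j + t * v j) →
      K = ∅ ∨ K = Finset.univ := by
    rw [eventually_all]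
    intro I
    rw [eventually_all]
    intro J
    rw [eventually_all]
    intro K
    by_cases hK : K = ∅ ∨ K = Finset.univ
    · exact Filter.Eventually.of_forall fun t _ => hK
    · have h5 : ∑ k ∈ K, w k - (∑ i ∈ I, u i + ∑ j ∈ J, v j) ≠ 0 :=
        sub_ne_zero.2 fun h => hK (h4 I J K h)
      filter_upwards [affine_ne (c := ∑ k ∈ K, γ k - (∑ i ∈ I, α i + ∑ j ∈ J, β j)) h5] with t ht heq
      exfalso
      apply ht
      simp only [Finset.sum_add_distrib, ← Finset.mul_sum] at heq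
      linear_combination heq
  filter_upwards [hinj α u h1, hinj β v h2, hinj γ w h3, hsum] with t e1 e2 e3 e4
  exact ⟨e1, e2, e3, e4⟩

/-- A regular balanced direction. -/
lemma exists_regular : ∃ u v w : Fin n → ℝ, Regular u v w ∧ ∑ i, w i = ∑ i, u i + ∑ i, v i := by
  rcases Nat.eq_zero_or_pos n with hn | hn
  · subst hn
    refine ⟨0, 0, 0, ⟨fun i => i.elim0, fun i => i.elim0, fun i => i.elim0, ?_⟩, by simp⟩
    intro I J K _
    left
    exact Finset.eq_empty_of_isEmpty K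
  set l : Fin n := ⟨n - 1, by omega⟩ with hl
  set S : ℝ := ∑ i, (dd i : ℝ) with hS
  have hS0 : 0 ≤ S := Finset.sum_nonneg fun i _ => (dd_pos (n := n) i).le
  set L : ℝ := 2 * S + 1 with hL
  have hL0 : 0 < L := by linarith
  set P : ℝ := ∑ k ∈ Finset.univ.erase l, dd k with hP
  have hP0 : 0 ≤ P := Finset.sum_nonneg fun i _ => (dd_pos (n := n) i).le
  set w : Fin n → ℝ := fun k => if k = l then 2 * S + L * P else -(L * dd k) with hw
  have hwl : w l = 2 * S + L * P := by simp [hw]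
  have hwn : ∀ k, k ≠ l → w k = -(L * dd k) := by intro k hk; simp [hw, hk]
  have hsumI : ∀ I : Finset (Fin n), 0 ≤ ∑ i ∈ I, dd i ∧ ∑ i ∈ I, dd i ≤ S := by
    intro I
    exact ⟨Finset.sum_nonneg fun i _ => (dd_pos i).le,
      Finset.sum_le_sum_of_subset_of_nonneg (Finset.subset_univ I) fun i _ _ => (dd_pos i).le⟩
  refine ⟨dd, dd, w, ⟨dd_inj, dd_inj, ?_, ?_⟩, ?_⟩
  · intro i j hij
    by_cases hi : i = l
    · by_cases hj : j = l
      · rw [hi, hj]
      · exfalso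
        rw [hi, hwl, hwn j hj] at hij
        have := mul_pos hL0 (dd_pos j)
        nlinarith [mul_nonneg hL0.le hP0]
    · by_cases hj : j = l
      · exfalso
        rw [hj, hwl, hwn i hi] at hij
        have := mul_pos hL0 (dd_pos i)
        nlinarith [mul_nonneg hL0.le hP0]
      · rw [hwn i hi, hwn j hj] at hij
        apply dd_inj
        have : L * dd i = L * dd j := by linarith
        exact mul_left_cancel₀ hL0.ne' this
  · intro I J K hK
    by_contra hcon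
    push Not at hcon
    obtain ⟨hne, hun⟩ := hcon
    have hI := hsumI I
    have hJ := hsumI J
    by_cases hlK : l ∈ K
    · have h1 : ∑ k ∈ K, w k = w l + ∑ k ∈ K.erase l, w k := (Finset.add_sum_erase K w hlK).symm
      have h2 : ∑ k ∈ K.erase l, w k = -(L * ∑ k ∈ K.erase l, dd k) := by
        rw [Finset.mul_sum, ← Finset.sum_neg_distrib]
        exact Finset.sum_congr rfl fun k hk => hwn k (Finset.ne_of_mem_erase hk)
      obtain ⟨k0, hk0⟩ : ∃ k, k ∉ K := by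
        by_contra hall
        push Not at hall
        exact hun (Finset.eq_univ_iff_forall.2 hall)
      have hk0l : k0 ≠ l := fun h => hk0 (h ▸ hlK)
      have h3 : dd k0 + ∑ k ∈ K.erase l, dd k ≤ P := by
        have h4 : k0 ∉ K.erase l := fun h => hk0 (Finset.mem_of_mem_erase h)
        rw [← Finset.sum_insert h4]
        apply Finset.sum_le_sum_of_subset_of_nonneg
        · intro x hx
          rw [Finset.mem_insert] at hx
          rw [Finset.mem_erase]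
          rcases hx with hx | hx
          · exact ⟨hx ▸ hk0l, Finset.mem_univ _⟩
          · exact ⟨Finset.ne_of_mem_erase hx, Finset.mem_univ _⟩
        · intro i _ _; exact (dd_pos i).le
      have h5 : (1 : ℝ) ≤ dd k0 := by
        unfold dd
        have : (0 : ℝ) ≤ (k0 : ℝ) := by positivity
        linarith
      rw [h1, h2, hwl] at hK
      have h6 : L * (1 + ∑ k ∈ K.erase l, dd k) ≤ L * P :=
        mul_le_mul_of_nonneg_left (by linarith) hL0.le
      nlinarith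
    · have h2 : ∑ k ∈ K, w k = -(L * ∑ k ∈ K, dd k) := by
        rw [Finset.mul_sum, ← Finset.sum_neg_distrib]
        exact Finset.sum_congr rfl fun k hk => hwn k (fun h => hlK (h ▸ hk))
      have h3 : 0 < ∑ k ∈ K, dd k := Finset.sum_pos (fun i _ => dd_pos i) hne
      have h4 := mul_pos hL0 h3
      linarith
  · have h1 : ∑ k, w k = w l + ∑ k ∈ Finset.univ.erase l, w k :=
      (Finset.add_sum_erase Finset.univ w (Finset.mem_univ l)).symm
    have h2 : ∑ k ∈ Finset.univ.erase l, w k = -(L * P) := by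
      rw [hP, Finset.mul_sum, ← Finset.sum_neg_distrib]
      exact Finset.sum_congr rfl fun k hk => hwn k (Finset.ne_of_mem_erase hk)
    rw [h1, h2, hwl, ← hS]
    ring

/-- Regular spectral data approximate the data of a generic pair. -/
lemma exists_regular_near {κ : ℝ} (hκ0 : 0 ≤ κ) (hκ1 : κ ≤ 1) {α β γ : Fin n → ℝ}
    (hα : ∀ i, 0 < α i) (hβ : ∀ i, 0 < β i) (hbal : ∑ i, γ i = ∑ i, α i + ∑ i, β i)
    (hloc : ∀ᶠ q : ℝ × (Fin n → ℝ) × (Fin n → ℝ) × (Fin n → ℝ) in 𝓝 (κ, α, β, γ),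
      0 ≤ q.1 → q.1 ≤ 1 → ∑ i, q.2.2.2 i = ∑ i, q.2.1 i + ∑ i, q.2.2.1 i →
      Sol q.1 q.2.1 q.2.2.1 q.2.2.2) {ε : ℝ} (hε : 0 < ε) :
    ∃ α' β' γ' : Fin n → ℝ, Regular α' β' γ' ∧ (∀ i, 0 < α' i) ∧ (∀ i, 0 < β' i) ∧
      ∑ i, γ' i = ∑ i, α' i + ∑ i, β' i ∧ Sol κ α' β' γ' ∧
      dist α' α < ε ∧ dist β' β < ε ∧ dist γ' γ < ε := by
  obtain ⟨u, v, w, hreg, huvw⟩ := exists_regular (n := n)
  set path : ℝ → ℝ × (Fin n → ℝ) × (Fin n → ℝ) × (Fin n → ℝ) := fun t =>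
    (κ, (fun i => α i + t * u i), (fun i => β i + t * v i), (fun i => γ i + t * w i)) with hpath
  have hpc : Continuous path := by
    rw [hpath]; fun_prop
  have hp0 : path 0 = (κ, α, β, γ) := by simp [hpath]
  have hpt : Tendsto path (𝓝[≠] 0) (𝓝 (κ, α, β, γ)) := by
    rw [← hp0]
    exact (hpc.tendsto 0).mono_left nhdsWithin_le_nhds
  have e1 := hpt.eventually hloc
  have e2 := regular_eventually (α := α) (β := β) (γ := γ) hreg
  have hpt2 : Tendsto (fun t => (path t).2.1) (𝓝[≠] 0) (𝓝 α) :=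
    ((continuous_fst.comp continuous_snd).tendsto (κ, α, β, γ)).comp hpt
  have hpt3 : Tendsto (fun t => (path t).2.2.1) (𝓝[≠] 0) (𝓝 β) :=
    ((continuous_fst.comp (continuous_snd.comp continuous_snd)).tendsto (κ, α, β, γ)).comp hpt
  have hpt4 : Tendsto (fun t => (path t).2.2.2) (𝓝[≠] 0) (𝓝 γ) :=
    ((continuous_snd.comp (continuous_snd.comp continuous_snd)).tendsto (κ, α, β, γ)).comp hpt
  have e3 : ∀ᶠ t in 𝓝[≠] (0 : ℝ), ∀ i, 0 < (path t).2.1 i := by
    rw [eventually_all]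
    intro i
    exact (((continuous_apply i).tendsto α).comp hpt2).eventually (lt_mem_nhds (hα i))
  have e4 : ∀ᶠ t in 𝓝[≠] (0 : ℝ), ∀ i, 0 < (path t).2.2.1 i := by
    rw [eventually_all]
    intro i
    exact (((continuous_apply i).tendsto β).comp hpt3).eventually (lt_mem_nhds (hβ i))
  have e5 : ∀ᶠ t in 𝓝[≠] (0 : ℝ), dist (path t).2.1 α < ε :=
    hpt2.eventually (Metric.ball_mem_nhds α hε)
  have e6 : ∀ᶠ t in 𝓝[≠] (0 : ℝ), dist (path t).2.2.1 β < ε :=
    hpt3.eventually (Metric.ball_mem_nhds β hε)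
  have e7 : ∀ᶠ t in 𝓝[≠] (0 : ℝ), dist (path t).2.2.2 γ < ε :=
    hpt4.eventually (Metric.ball_mem_nhds γ hε)
  obtain ⟨t, h1, h2, h3, h4, h5, h6, h7⟩ :=
    (e1.and (e2.and (e3.and (e4.and (e5.and (e6.and e7)))))).exists
  have hbal' : ∑ i, (path t).2.2.2 i = ∑ i, (path t).2.1 i + ∑ i, (path t).2.2.1 i := by
    show ∑ i, (γ i + t * w i) = ∑ i, (α i + t * u i) + ∑ i, (β i + t * v i)
    simp only [Finset.sum_add_distrib, ← Finset.mul_sum]
    rw [hbal, huvw]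
    ring
  exact ⟨(path t).2.1, (path t).2.2.1, (path t).2.2.2, h2, h3, h4, hbal',
    h1 hκ0 hκ1 hbal', h5, h6, h7⟩

/-- Solvability does not depend on the parameter. -/
theorem sol_transfer {κ0 κ1 : ℝ} (h0 : κ0 ∈ Set.Icc (0 : ℝ) 1) (h1 : κ1 ∈ Set.Icc (0 : ℝ) 1)
    {α β γ : Fin n → ℝ} (h : Sol κ0 α β γ) : Sol κ1 α β γ := by
  have hκ0 := h0.1
  have hκ1 := h0.2
  obtain ⟨a, b, V, W, ha, hb, haα, hbβ, hV, hW, hF⟩ := h
  have hBpsd : (V * dg b * Vᴴ).PosSemidef := (dg_posSemidef hb).mul_mul_conjTranspose_same V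
  obtain ⟨am, Bm, ham, hBm, hgen⟩ := exists_generic hκ0 hκ1 ha hBpsd
  have hpt : ∀ m, ∃ (bm γm : Fin n → ℝ) (Vm Wm : Matrix (Fin n) (Fin n) ℂ) (α' β' γ' : Fin n → ℝ),
      (∀ i, 0 < bm i) ∧ IsU Vm ∧ IsU Wm ∧ Bm m = Vm * dg bm * Vmᴴ ∧
      Fk κ0 (dg (am m)) (Bm m) = Wm * dg γm * Wmᴴ ∧
      Sol κ1 α' β' γ' ∧ dist α' (fun i => tk κ0 (am m i)) < 1 / ((m : ℝ) + 1) ∧
      dist β' (fun i => tk κ0 (bm i)) < 1 / ((m : ℝ) + 1) ∧ dist γ' γm < 1 / ((m : ℝ) + 1) := by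
    intro m
    obtain ⟨g1, g2, g3, g4, g5, g6⟩ := hgen m
    obtain ⟨Vm, hVm, hBV⟩ := exists_diag g3.1
    set bm := g3.1.eigenvalues with hbm
    have hbpos : ∀ i, 0 < bm i := fun i => g3.eigenvalues_pos i
    have hFh : (Fk κ0 (dg (am m)) (Bm m)).IsHermitian := Fk_isHermitian (dg_isHermitian _) g3.1
    obtain ⟨Wm, hWm, hFW⟩ := exists_diag hFh
    set γm := hFh.eigenvalues with hγm
    have hbinj : Function.Injective bm := by
      rw [← hk_ne_iff hVm, ← hBV]; exact g4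
    have hγinj : Function.Injective γm := by
      rw [← hk_ne_iff hWm, ← hFW]; exact g5
    have hF' : Fk κ0 (dg (am m)) (Vm * dg bm * Vmᴴ) = Wm * dg γm * Wmᴴ := by
      rw [← hBV]; exact hFW
    have hirr : Irr (Vm * dg bm * Vmᴴ) := by rw [← hBV]; exact g6
    have hloc := local_sol hκ0 hκ1 g1 g2 hbpos hbinj hγinj hVm hWm hF' hirr
    have hbal : ∑ i, γm i = ∑ i, tk κ0 (am m i) + ∑ i, tk κ0 (bm i) := by
      have h2 := trace_Fk κ0 (am m) bm hVm
      rw [hF', trace_conj hWm.1, trace_dg] at h2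
      exact_mod_cast h2
    obtain ⟨α', β', γ', r1, r2, r3, r4, r5, r6, r7, r8⟩ := exists_regular_near hκ0 hκ1
      (fun i => tk_pos hκ0 hκ1 (g1 i)) (fun i => tk_pos hκ0 hκ1 (hbpos i)) hbal hloc
      (ε := 1 / ((m : ℝ) + 1)) (by positivity)
    exact ⟨bm, γm, Vm, Wm, α', β', γ', hbpos, hVm, hWm, hBV, hFW,
      sol_of_regular r1 r2 r3 r4 h0 h1 r5, r6, r7, r8⟩
  choose bm γm Vm Wm α' β' γ' q1 q2 q3 q4 q5 q6 q7 q8 q9 using hpt
  -- subsequence for `b`
  obtain ⟨φ1, σ, hφ1, hl1⟩ := eig_limit hBm q2 q4 hV rfl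
  -- subsequence for `γ`
  have hFm : Tendsto (fun m => Fk κ0 (dg (am (φ1 m))) (Bm (φ1 m))) atTop
      (𝓝 (Fk κ0 (dg a) (V * dg b * Vᴴ))) := by
    have h2 : Tendsto (fun m => dg (am (φ1 m))) atTop (𝓝 (dg a)) :=
      ((continuous_dg.tendsto a).comp ham).comp hφ1
    exact tendsto_Fk tendsto_const_nhds h2 (hBm.comp hφ1)
  obtain ⟨φ2, τ, hφ2, hl2⟩ := eig_limit hFm (fun m => q3 (φ1 m)) (fun m => q5 (φ1 m)) hW hF
  have hε : Tendsto (fun m : ℕ => 1 / ((m : ℝ) + 1)) atTop (𝓝 0) :=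
    tendsto_one_div_add_atTop_nhds_zero_nat
  have hφ : Tendsto (fun m => φ1 (φ2 m)) atTop atTop := hφ1.comp hφ2
  have hεφ := hε.comp hφ
  have htkc : ∀ c : Fin n → ℝ, Tendsto (fun c : Fin n → ℝ => fun i => tk κ0 (c i)) (𝓝 c)
      (𝓝 (fun i => tk κ0 (c i))) := by
    intro c
    have : Continuous (fun c : Fin n → ℝ => fun i => tk κ0 (c i)) := by
      unfold tk; fun_prop
    exact this.tendsto c
  have hαlim : Tendsto (fun m => α' (φ1 (φ2 m))) atTop (𝓝 α) := by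
    have h2 : Tendsto (fun m => (fun i => tk κ0 (am (φ1 (φ2 m)) i))) atTop (𝓝 α) := by
      have h3 := (htkc a).comp (ham.comp hφ)
      have h4 : (fun i => tk κ0 (a i)) = α := funext haα
      rw [h4] at h3
      exact h3
    refine (tendsto_iff_of_dist ?_).2 h2
    exact squeeze_zero (fun m => dist_nonneg) (fun m => (q7 (φ1 (φ2 m))).le) hεφ
  have hβlim : Tendsto (fun m => β' (φ1 (φ2 m))) atTop (𝓝 (β ∘ σ)) := by
    have h2 : Tendsto (fun m => (fun i => tk κ0 (bm (φ1 (φ2 m)) i))) atTop (𝓝 (β ∘ σ)) := by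
      have h3 := (htkc (b ∘ σ)).comp (hl1.comp hφ2)
      have h4 : (fun i => tk κ0 ((b ∘ σ) i)) = β ∘ σ := by
        ext i; exact hbβ (σ i)
      rw [h4] at h3
      exact h3
    refine (tendsto_iff_of_dist ?_).2 h2
    exact squeeze_zero (fun m => dist_nonneg) (fun m => (q8 (φ1 (φ2 m))).le) hεφ
  have hγlim : Tendsto (fun m => γ' (φ1 (φ2 m))) atTop (𝓝 (γ ∘ τ)) := by
    refine (tendsto_iff_of_dist ?_).2 hl2
    exact squeeze_zero (fun m => dist_nonneg) (fun m => (q9 (φ1 (φ2 m))).le) hεφ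
  have hsol : Sol κ1 α (β ∘ σ) (γ ∘ τ) :=
    sol_closed (u := fun _ => κ1) (fun _ => h1.1) (fun _ => h1.2) tendsto_const_nhds hαlim hβlim
      hγlim (fun m => q6 (φ1 (φ2 m)))
  have h2 := hsol.perm σ.symm τ.symm
  have e1 : (β ∘ σ) ∘ σ.symm = β := by ext i; simp
  have e2 : (γ ∘ τ) ∘ τ.symm = γ := by ext i; simp
  rw [e1, e2] at h2
  exact h2

end Pool.Agent.Helper44.Cart
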